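import Mathlib
import Pool.Agent.Work.MP_a2fb93_sub.Defs
set_option autoImplicit false

/-!
Vertices, degrees, balls and walks of a triangulation.
-/

namespace ESub

namespace Triangulation

variable {D : Type}

/-- All degrees are even. The degree of the origin of d is the least positive n with rot^[n] d = d,
and all n with rot^[n] d = d are multiples of it. -/
def EvenDegrees (T : Triangulation D) : Prop := ∀ (d : D) (n : ℕ), T.rot^[n] d = d → Even n

/-- a vertex of T is a class of darts with the same origin -/
def Vertex (T : Triangulation D) : Type := Quot T.SameOrigin

/-- the origin of a dart -/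
def org (T : Triangulation D) (d : D) : T.Vertex := Quot.mk _ d

/-- the end of a dart -/
def tgt (T : Triangulation D) (d : D) : T.Vertex := T.org (T.inv d)

/-- Near n v w: there is a walk of at most n edges from v to w -/
def Near (T : Triangulation D) : ℕ → T.Vertex → T.Vertex → Prop
  | 0, v, w => v = w
  | n + 1, v, w => T.Near n v w ∨ ∃ d, T.org d = v ∧ T.Near n (T.tgt d) w

end Triangulation

end ESub
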