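import Mathlib
import Pool.Agent.Work.MP_a2fb93_ev.Defs
set_option autoImplicit false

/-!
Interface of the proof for Eulerian triangulations (MP_a2fb93_co). All statements are true as stated;
the hints are complete proofs. Notation: a walk is a list of darts.
-/

namespace ESub

open Finset Classical

/-! ### Affine maps y ↦ s y + t with s = 1 or -1 -/

/-- the map y ↦ s y + t -/
@[ext] structure Aff (R : Type) where
  s : ℤˣ
  t : R

namespace Aff

variable {R : Type} [CommRing R]

instance : One (Aff R) := ⟨⟨1, 0⟩⟩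
instance : Mul (Aff R) := ⟨fun a b => ⟨a.s * b.s, a.t + ((a.s : ℤ) : R) * b.t⟩⟩
instance : Inv (Aff R) := ⟨fun a => ⟨a.s, -(((a.s : ℤ) : R) * a.t)⟩⟩

@[simp] theorem one_s : (1 : Aff R).s = 1 := rfl
@[simp] theorem one_t : (1 : Aff R).t = 0 := rfl
@[simp] theorem mul_s (a b : Aff R) : (a * b).s = a.s * b.s := rfl
@[simp] theorem mul_t (a b : Aff R) : (a * b).t = a.t + ((a.s : ℤ) : R) * b.t := rfl
@[simp] theorem inv_s (a : Aff R) : (a⁻¹).s = a.s := rfl
@[simp] theorem inv_t (a : Aff R) : (a⁻¹).t = -(((a.s : ℤ) : R) * a.t) := rfl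

theorem sq (u : ℤˣ) : ((u : ℤ) : R) * ((u : ℤ) : R) = 1 := by
  rcases Int.units_eq_one_or u with h | h <;> subst h <;> simp

instance : Group (Aff R) :=
  Group.ofLeftAxioms
    (fun a b c => by
      ext
      · simp [mul_assoc]
      · simp only [mul_t, mul_s, Units.val_mul, Int.cast_mul]; ring)
    (fun a => by ext <;> simp)
    (fun a => by
      ext
      · simp [Int.units_mul_self]
      · simp)

/-- the value of the map at y -/
def act (a : Aff R) (y : R) : R := ((a.s : ℤ) : R) * y + a.t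

theorem act_mul (a b : Aff R) (y : R) : (a * b).act y = a.act (b.act y) := by
  simp only [act, mul_t, mul_s, Units.val_mul, Int.cast_mul]; ring

theorem act_one (y : R) : (1 : Aff R).act y = y := by simp [act]

/-- reduction mod 3 -/
def red (a : Aff ℤ) : Aff (ZMod 3) := ⟨a.s, (a.t : ZMod 3)⟩

end Aff

namespace Triangulation

variable {D : Type}

/-- the darts in l form a walk from v to w -/
def IsWalk (T : Triangulation D) : List D → T.Vertex → T.Vertex → Prop
  | [], v, w => v = w
  | d :: l, v, w => T.org d = v ∧ T.IsWalk l (T.tgt d) w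

/-- min (distance of v and u, L + 1) -/
noncomputable def td (T : Triangulation D) (L : ℕ) (u v : T.Vertex) : ℕ :=
  sInf {n | n = L + 1 ∨ T.Near n v u}

/-- the reversed walk -/
def rev (T : Triangulation D) (l : List D) : List D := (l.map T.inv).reverse

end Triangulation

/-! ### Block VTX: vertices and walks -/

/-- VTX. Elementary facts. rot is a permutation of the finite set D, so SameOrigin is an equivalence
relation and Quot.mk identifies exactly the pairs with SameOrigin (Quot.eq, EqvGen). The inverse of rot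
is d ↦ next (inv d), so org (next d) = org (inv d) = tgt d. -/
def Stmt_VTX : Prop :=
  ∀ (D : Type) [Finite D] (T : Triangulation D),
    Finite T.Vertex ∧
    (∀ v : T.Vertex, ∃ d, T.org d = v) ∧
    (∀ d e, T.org d = T.org e ↔ T.SameOrigin d e) ∧
    (∀ d, T.org (T.rot d) = T.org d) ∧
    (∀ d, T.org (T.next d) = T.tgt d) ∧
    (∀ d, T.tgt (T.next (T.next d)) = T.org d) ∧
    (∀ d, T.tgt (T.inv d) = T.org d) ∧
    (∀ l l' u v w, T.IsWalk l u v → T.IsWalk l' v w → T.IsWalk (l ++ l') u w) ∧
    (∀ l u v, T.IsWalk l u v → T.IsWalk (T.rev l) v u) ∧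
    (∀ l l' u w, T.IsWalk (l ++ l') u w → ∃ v, T.IsWalk l u v ∧ T.IsWalk l' v w) ∧
    (∀ n v w, T.Near n v w ↔ ∃ l : List D, l.length ≤ n ∧ T.IsWalk l v w) ∧
    (∀ (G : Type) [Group G] (g : D → G), IsFlat T g → ∀ l : List D,
      ((T.rev l).map g).prod = ((l.map g).prod)⁻¹)

/-- HOL. A closed walk of length k = l.length >= 1 gives the closed curve i ↦ (l[i % k], 1) of k points
(stepEnd (d, 1) = next d has the same origin as inv d, hence as the next dart; stepVal g (d, 1) = g d);
for l = [] the product is empty. -/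
def Stmt_HOL : Prop :=
  ∀ (D : Type) [Finite D] (T : Triangulation D) (n : ℕ), T.FaceWidthAtLeast n →
    ∀ (l : List D) (v : T.Vertex), T.IsWalk l v v → l.length < n →
      ∀ (G : Type) [Group G] (g : D → G), IsFlat T g → (l.map g).prod = 1

/-- CONN. sigma : D → {1, -1} with sigma (rot d) = - sigma d: pick a representative d0 of each orbit of
rot and put sigma d = (-1)^n for some n with rot^[n] d0 = d; two such n have the same parity by
EvenDegrees (rot is injective). As rot (inv d) = ... , i.e. rot (next d) = inv d up to the direction: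
rot^{-1} (inv d) = next d, one gets sigma (next d) = - sigma (inv d). Put
g d = ⟨- sigma d * sigma (inv d), t⟩ with t = sigma (inv d) if sigma d = - sigma (inv d)
and t = 1 - sigma (inv d) if sigma d = sigma (inv d). Flatness: with s1, s2, s3 the signs of the darts
of a face, sigma (inv d_i) = - s_(i+1), check the eight cases. (g d).act 2 = 2 + sigma (inv d), resp.
-1 - sigma (inv d), never 2. -/
def Stmt_CONN : Prop :=
  ∀ (D : Type) [Finite D] (T : Triangulation D), T.EvenDegrees →
    ∃ g : D → Aff (ZMod 3), IsFlat T g ∧ ∀ d, (g d).act 2 ≠ 2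

/-- GAUGE. A v = product of g along γ v, g' d = (A (org d))⁻¹ * g d * A (tgt d),
cl v = ((A v)⁻¹).act 2. g' d = 1 for c (org d) = c (tgt d): the walk rev (γ (org d)) ++ [d] ++ γ (tgt d)
is closed at c (org d) and has at most 2 L + 1 < n darts (HOL). -/
def Stmt_GAUGE : Prop :=
  ∀ (D : Type) [Finite D] (T : Triangulation D) (n L : ℕ), T.FaceWidthAtLeast n → 2 * L + 1 < n →
    ∀ (c : T.Vertex → T.Vertex) (γ : T.Vertex → List D), (∀ v, T.IsWalk (γ v) v (c v)) →
      (∀ v, (γ v).length ≤ L) →
    ∀ g : D → Aff (ZMod 3), IsFlat T g → (∀ d, (g d).act 2 ≠ 2) →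
      ∃ (g' : D → Aff (ZMod 3)) (cl : T.Vertex → ZMod 3), IsFlat T g' ∧
        (∀ d, (g' d).act (cl (T.tgt d)) ≠ cl (T.org d)) ∧
        (∀ d, c (T.org d) = c (T.tgt d) → g' d = 1)

/-! ### Integer lift -/

/-- REACH. A relation with a finite set of states. If ψ can be reached from φ by steps h
(h leads from a h to b h), there is a finite set F of steps, all of them allowed, whose total effect is
to move one unit from φ to ψ. Proof: induction on the least number of steps (level), keeping: all h in F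
have level (a h) < level ψ; so the last step is not in F. -/
def Stmt_REACH : Prop :=
  ∀ (S H : Type) [Fintype S] [Fintype H] (a b : H → S) (P : H → Prop) (φ ψ : S),
    Relation.ReflTransGen (fun x y => ∃ h, P h ∧ a h = x ∧ b h = y) φ ψ →
    ∃ F : Finset H, (∀ h ∈ F, P h) ∧
      ∀ x : S, ((F.filter (fun h => a h = x)).card : ℤ) - ((F.filter (fun h => b h = x)).card : ℤ) =
        (if x = φ then 1 else 0) - (if x = ψ then 1 else 0)

/-- TUT (Tutte). inv is a fixed point free involution, the orbits of next are the vertices (size 3) of a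
cubic graph, c is a flow mod 3. Take x antisymmetric with x ≡ c, |x| ≤ 2, x = 0 where c = 0 (start with
values in {-1, 0, 1}), with least sum over h of |∂x h|, ∂x h = x h + x (next h) + x (next (next h))
(a multiple of 3, constant on orbits). If some ∂x is not 0 then, as the sum of all ∂x is 3 * sum x = 0,
some ∂x h0 > 0. Steps: h with x h > 0 leads from the orbit of h to the orbit of inv h (use for S the
quotient of H by the orbits, or H / next). Let R be the set of reachable orbits. For h in R with inv h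
not in R: x h ≤ 0; the others cancel, so the sum of x over R is ≤ 0, and since ∂x h0 > 0 some orbit in R
has ∂x < 0. Apply REACH and replace x by x - 3 on F and x + 3 on inv F (F and inv F are disjoint since
x > 0 on F): |x| ≤ 2 stays true, c = 0 is not touched, and the sum decreases. -/
def Stmt_TUT : Prop :=
  ∀ (H : Type) [Finite H] (inv next : H → H) (c : H → ZMod 3), (∀ h, inv (inv h) = h) →
    (∀ h, inv h ≠ h) → (∀ h, next (next (next h)) = h) → (∀ h, next h ≠ h) →
    (∀ h, c (inv h) = -c h) → (∀ h, c h + c (next h) + c (next (next h)) = 0) →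
    ∃ x : H → ℤ, (∀ h, (x h : ZMod 3) = c h) ∧ (∀ h, x (inv h) = -x h) ∧
      (∀ h, x h + x (next h) + x (next (next h)) = 0) ∧ (∀ h, |x h| ≤ 2) ∧
      (∀ h, c h = 0 → x h = 0)

/-- FL. Apply TUT to H × Bool (or H × ℤˣ): the involution sends (h, e) to (inv h, μ h * e), next acts on
the first coordinate, the flow is e * (2 * c h) = - e * c h. Put x h = u (h, 1) - u (h, -1). Then
x ≡ 2c + 2c = 4c = c, x (inv h) = - μ h * x h (case μ h = 1 or -1), |x| ≤ 4. -/
def Stmt_FL : Prop :=
  ∀ (H : Type) [Finite H] (inv next : H → H) (μ : H → ℤˣ) (c : H → ZMod 3),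
    (∀ h, inv (inv h) = h) → (∀ h, inv h ≠ h) → (∀ h, next (next (next h)) = h) →
    (∀ h, next h ≠ h) → (∀ h, μ (inv h) = μ h) →
    (∀ h, c (inv h) = -(((μ h : ℤ) : ZMod 3) * c h)) →
    (∀ h, c h + c (next h) + c (next (next h)) = 0) →
    ∃ x : H → ℤ, (∀ h, (x h : ZMod 3) = c h) ∧ (∀ h, x (inv h) = -((μ h : ℤ) * x h)) ∧
      (∀ h, x h + x (next h) + x (next (next h)) = 0) ∧ (∀ h, |x h| ≤ 4) ∧
      (∀ h, c h = 0 → x h = 0)

/-- LIFT. Choose σ : D → ℤˣ with σ (next d) = σ d * (g d).s (choose a base dart in each orbit of next;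
possible since the product of the three s is 1). Put μ d = σ d * σ (inv d) * (g d).s and
c d = σ d * (g d).t. (g (inv d)).s = (g d).s and (g (inv d)).t = - s t give the symmetry; flatness
t1 + s1 t2 + s1 s2 t3 = 0 gives c d + c (next d) + c (next (next d)) = 0. FL gives x; put
ρ d = ⟨(g d).s, σ d * x d⟩. -/
def Stmt_LIFT : Prop :=
  ∀ (D : Type) [Finite D] (T : Triangulation D) (g : D → Aff (ZMod 3)), IsFlat T g →
    ∃ ρ : D → Aff ℤ, IsFlat T ρ ∧ (∀ d, (ρ d).red = g d) ∧ (∀ d, |(ρ d).t| ≤ 4) ∧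
      (∀ d, g d = 1 → ρ d = 1)

/-! ### Potential and colouring -/

/-- POT. A v = inf over walks l from v (to any w) of (product).t + length / 4,
B v = sup of (product).t - length / 4 (bounded by C), F = (A + B) / 2. For a dart d from v to w and a
walk l from w: product (d :: l) = ρ d * product l has t = t_d + s_d t_l. If s_d = 1:
A v ≤ t_d + A w + 1/4 and B v ≥ t_d + B w - 1/4; if s_d = -1: A v ≤ t_d - B w + 1/4,
B v ≥ t_d - A w - 1/4. The same for inv d (ρ (inv d) = (ρ d)⁻¹) gives the reverse inequalities. -/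
def Stmt_POT : Prop :=
  ∀ (D : Type) [Finite D] (T : Triangulation D) (ρ : D → Aff ℤ), IsFlat T ρ → ∀ C : ℝ,
    (∀ (l : List D) (v w : T.Vertex), T.IsWalk l v w →
      |((((l.map ρ).prod).t : ℤ) : ℝ)| ≤ (l.length : ℝ) / 4 + C) →
    ∃ F : T.Vertex → ℝ, ∀ d,
      |F (T.org d) - ((((ρ d).s : ℤ) : ℝ) * F (T.tgt d) + (((ρ d).t : ℤ) : ℝ))| ≤ 1 / 4

/-- COL. Put Φ v = 2 F v + 1/2 and let N v be an integer with N v ≡ 2 * cl v + 2 mod 3 and
|N v - Φ v| ≤ 3/2. Let M d (z) = s z + 2 t + (1 - s)/2 (integer map) for ρ d = ⟨s, t⟩; mod 3 it is the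
conjugate of red (ρ d) by y ↦ 2y + 2. M d (N (tgt d)) - N (org d) is not 0 mod 3 and has absolute value
≤ 3/2 + 3/2 + 2 * (1/4) < 4, so it is ±1 or ±2. colour d: a = N (org d), b = M d (N (tgt d));
2 if |a - b| = 2, else the parity of min a b. M preserves |a - b| and the parity of the minimum of two
consecutive integers, and M (inv d) is the inverse of M d, so colour (inv d) = colour d. Face d1, d2, d3:
in the frame of org d1 the three heights are N u, M d1 (N v), M d1 (M d2 (N w)) = M (inv d3) (N w);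
pairwise differences ±1, ±2 and pairwise different mod 3 (a triple with differences of absolute value
≤ 2 and none divisible by 3), so they are m, m+1, m+2 in some order and the colours are different. -/
def Stmt_COL : Prop :=
  ∀ (D : Type) [Finite D] (T : Triangulation D) (ρ : D → Aff ℤ) (cl : T.Vertex → ZMod 3)
    (F : T.Vertex → ℝ), IsFlat T ρ →
    (∀ d, ((ρ d).red).act (cl (T.tgt d)) ≠ cl (T.org d)) →
    (∀ d, |F (T.org d) - ((((ρ d).s : ℤ) : ℝ) * F (T.tgt d) + (((ρ d).t : ℤ) : ℝ))| ≤ 1 / 4) →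
    T.DualThreeEdgeColourable

/-! ### Transport along walks -/

/-- the number of different centres met by the walk l from v -/
noncomputable def ncen {D : Type} (T : Triangulation D) (c : T.Vertex → T.Vertex) (v : T.Vertex)
    (l : List D) : ℕ :=
  (insert (c v) ((l.map (fun d => c (T.tgt d))).toFinset)).card

/-- TRA. For a walk l from v to w of length ≤ R: |t (product)| ≤ 4 (ncen - 1). Induction on ncen: let j
be the last vertex of the walk with the centre c v; the part up to j followed by γ and reversed γ is a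
closed walk of length ≤ R + 2 L < n, so its ρ is 1, and ρ = 1 on γ; the next dart has |t| ≤ 4; the rest
does not meet the cluster of v. -/
def Stmt_TRA : Prop :=
  ∀ (D : Type) [Finite D] (T : Triangulation D) (n L R : ℕ), T.FaceWidthAtLeast n →
    R + 2 * L < n → ∀ (c : T.Vertex → T.Vertex) (γ : T.Vertex → List D),
    (∀ v, T.IsWalk (γ v) v (c v)) → (∀ v, (γ v).length ≤ L) →
    (∀ v, ∀ d ∈ γ v, c (T.org d) = c (T.tgt d)) →
    ∀ ρ : D → Aff ℤ, IsFlat T ρ → (∀ d, |(ρ d).t| ≤ 4) →
    (∀ d, c (T.org d) = c (T.tgt d) → ρ d = 1) →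
    ∀ (l : List D) (v w : T.Vertex), T.IsWalk l v w → l.length ≤ R →
      |((l.map ρ).prod).t| + 4 ≤ 4 * (ncen T c v l : ℤ)

/-- TRB. By TRA the chosen walks have |t| ≤ R / 4; a walk of length ≤ R has the same ρ as the chosen walk
with the same ends (closed walk of length ≤ 2 R < n); a long walk is cut into pieces of length R. -/
def Stmt_TRB : Prop :=
  ∀ (D : Type) [Finite D] (T : Triangulation D) (n L R : ℕ), 0 < R → T.FaceWidthAtLeast n →
    R + 2 * L < n → 2 * R < n → ∀ (c : T.Vertex → T.Vertex) (γ : T.Vertex → List D),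
    (∀ v, T.IsWalk (γ v) v (c v)) → (∀ v, (γ v).length ≤ L) →
    (∀ v, ∀ d ∈ γ v, c (T.org d) = c (T.tgt d)) →
    (∀ v w, T.Near R v w → ∃ l, T.IsWalk l v w ∧ l.length ≤ R ∧ 16 * ncen T c v l ≤ R) →
    ∀ ρ : D → Aff ℤ, IsFlat T ρ → (∀ d, |(ρ d).t| ≤ 4) →
    (∀ d, c (T.org d) = c (T.tgt d) → ρ d = 1) →
    ∀ (l : List D) (v w : T.Vertex), T.IsWalk l v w →
      |((((l.map ρ).prod).t : ℤ) : ℝ)| ≤ (l.length : ℝ) / 4 + (R : ℝ) / 4

/-! ### Clusters -/

/-- TDF. Properties of the truncated distance. -/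
def Stmt_TDF : Prop :=
  ∀ (D : Type) [Finite D] (T : Triangulation D) (L : ℕ),
    (∀ u v, T.td L u v ≤ L + 1) ∧ (∀ v, T.td L v v = 0) ∧
    (∀ u d, T.td L u (T.org d) ≤ T.td L u (T.tgt d) + 1) ∧
    (∀ u d, T.td L u (T.tgt d) ≤ T.td L u (T.org d) + 1) ∧
    (∀ u v, T.td L u v = 0 → u = v) ∧
    (∀ u v k, T.td L u v = k + 1 → k + 1 ≤ L → ∃ d, T.org d = v ∧ T.td L u (T.tgt d) = k) ∧
    (∀ u v, T.td L u v ≤ L ↔ T.Near L v u)

/-- the score of u at v; all scores at v are different if ord is injective with values ≤ n -/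
noncomputable def score {D : Type} (T : Triangulation D) (L n : ℕ) (δ ord : T.Vertex → ℕ)
    (u v : T.Vertex) : ℤ :=
  ((n : ℤ) + 1) * ((δ u : ℤ) - (T.td L u v : ℤ)) + (ord u : ℤ)

/-- CLUS. c v is the vertex with the greatest score at v. The score of c v at v is at least the score
of v at v, so td (c v) v ≤ L (else the score is ≤ (n+1)(-1) + n < 0). Induction on k = td (c v) v: if
k = 0 then γ v = []; else take d from v to v' with td (c v) v' = k - 1: the score of c v goes up by n + 1,
the scores of the others by at most n + 1, so c v' = c v; γ v = d :: γ v'. -/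
def Stmt_CLUS : Prop :=
  ∀ (D : Type) [Finite D] (T : Triangulation D) (L n : ℕ) (δ ord : T.Vertex → ℕ)
    (c : T.Vertex → T.Vertex), (∀ u, δ u ≤ L) → (∀ u, ord u ≤ n) →
    (∀ v u, u ≠ c v → score T L n δ ord u v < score T L n δ ord (c v) v) →
    ∃ γ : T.Vertex → List D, (∀ v, T.IsWalk (γ v) v (c v)) ∧ (∀ v, (γ v).length ≤ L) ∧
      ∀ v, ∀ d ∈ γ v, c (T.org d) = c v ∧ c (T.tgt d) = c v

/-! ### Counting -/

/-- outcomes: for each vertex a number U < h and a number x < 2^m -/
abbrev Out (V : Type) (h m : ℕ) := V → Fin h × Fin (2 ^ m)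

/-- the shift h G + U with G = m - (number of binary digits of x) -/
def shift {V : Type} {h m : ℕ} (ω : Out V h m) (u : V) : ℕ :=
  h * (m - Nat.size ((ω u).2 : ℕ)) + ((ω u).1 : ℕ)

/-- CNT. Positions i < P, blocks of b positions (P ≤ B b), h = 2b; g u i is the (truncated) distance of
u to position i; W ω i is the winner at i. Good: no winner has x = 0. Let S be a subset of the set of
winners of a good ω and let ω' be ω with x replaced by x / 2 on S (G goes up by 1, the shift by h, since
x ≥ 1). For u ∈ S with u = W ω i0: W ω' i0 = u, and for all i in the block of i0 the winner W ω' i is in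
S (score of u at i: up by (n+1)h, down by at most (n+1)(b-1); score of the others not in S at i at most
(n+1)(b-1) above their score at i0). So S = {W ω' i : i in a block containing some i0 with W ω i0 ∈ S}
is determined by ω' and a subset of the B blocks. Injection from the triples (ω good, S ⊆ winners,
e : V → Bool supported off S) to the triples (ω', set of blocks, V → Bool) by storing the lowest digit of
x u for u ∈ S. Hence the sum over good ω of sum over S of 2^(|V| - |S|) is ≤ |Out| 2^B 2^|V|, i.e.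
sum over good ω of (3/2)^N ≤ 2^B |Out|. -/
def Stmt_CNT : Prop :=
  ∀ (V : Type) [Fintype V] (b m P B n : ℕ) (g : V → ℕ → ℕ) (ord : V → ℕ)
    (W : Out V (2 * b) m → ℕ → V), 0 < b → P ≤ B * b →
    (∀ u, ord u ≤ n) → (∀ u i j, i ≤ j → g u i ≤ g u j + (j - i) ∧ g u j ≤ g u i + (j - i)) →
    (∀ ω i u, i < P → u ≠ W ω i →
      ((n : ℤ) + 1) * ((shift ω u : ℤ) - (g u i : ℤ)) + (ord u : ℤ) <
        ((n : ℤ) + 1) * ((shift ω (W ω i) : ℤ) - (g (W ω i) i : ℤ)) + (ord (W ω i) : ℤ)) →
    ∀ k : ℕ,
      (univ.filter (fun ω : Out V (2 * b) m => (∀ i < P, ((ω (W ω i)).2 : ℕ) ≠ 0) ∧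
        k ≤ ((range P).image (W ω)).card)).card * 3 ^ k ≤
        2 ^ (B + k) * Fintype.card (Out V (2 * b) m)

/-- the event E depends only on the coordinates in Q -/
def DepOn {V X : Type} (Q : Finset V) (E : (V → X) → Prop) : Prop :=
  ∀ ω ω' : V → X, (∀ u ∈ Q, ω u = ω' u) → (E ω ↔ E ω')

/-- LLS. Symmetric Lovasz local lemma in a product space, from Stmt_AL in
Pool.Agent.Work.MP_db9399_all.Interface (proved as stmt_AL, file Work/MP_db9399_all_helper6/AL.lean):
adj v w = not disjoint (Q v) (Q w), p = 1/(6M), x = 1/(2M); independence as in LLLIAux.indep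
(exchange of the coordinates outside Q v), in Work/MP_db9399_all_helper6/LLLI.lean. -/
def Stmt_LLS : Prop :=
  ∀ (V X : Type) [Fintype V] [Fintype X] [Nonempty X] (E : V → (V → X) → Prop) (Q : V → Finset V)
    (M : ℕ), 1 ≤ M → (∀ v, DepOn (Q v) (E v)) →
    (∀ v, (univ.filter (fun w => ¬ Disjoint (Q v) (Q w))).card ≤ M) →
    (∀ v, 6 * M * (univ.filter (E v)).card ≤ Fintype.card (V → X)) →
    ∃ ω : V → X, ∀ v, ¬ E v ω

/-- HIGH. At most a 2^-m part of the outcomes has x = 0 at u. -/
def Stmt_HIGH : Prop :=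
  ∀ (V : Type) [Fintype V] (h m : ℕ) (u : V),
    (univ.filter (fun ω : Out V h m => ((ω u).2 : ℕ) = 0)).card * 2 ^ m ≤
      Fintype.card (Out V h m)

/-- WIN. The winner map c: at each v the vertex with the greatest score (ord injective, values ≤ n, so
the scores at v are pairwise different: they are ord mod n + 1). The score of v at v is ≥ 0; a vertex u with
td L u v = L + 1 has score ≤ -(n+1) + n < 0. So the winner has td ≤ L and does not depend on the shifts
of the vertices u with td L u v = L + 1. Take any value of c δ for δ with some δ u > L. -/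
def Stmt_WIN : Prop :=
  ∀ (D : Type) [Finite D] (T : Triangulation D) (L n : ℕ) (ord : T.Vertex → ℕ),
    (∀ u, ord u ≤ n) → Function.Injective ord →
    ∃ c : (T.Vertex → ℕ) → T.Vertex → T.Vertex,
      (∀ δ : T.Vertex → ℕ, (∀ u, δ u ≤ L) →
        (∀ v u, u ≠ c δ v → score T L n δ ord u v < score T L n δ ord (c δ v) v) ∧
        (∀ v, T.Near L v (c δ v))) ∧
      (∀ (δ δ' : T.Vertex → ℕ) (v : T.Vertex), (∀ u, δ u ≤ L) → (∀ u, δ' u ≤ L) →
        (∀ u, T.Near L v u → δ u = δ' u) → c δ v = c δ' v)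

/-- NUM. M = 2^(r/2^14). 3^k ≥ 2^k * 2^(k/2) since 9 ≥ 8; k / 2 ≥ r / 128 ≥ 2 (r / 256); so
N2 ≤ 2^(1 - r/256) A, N1 ≤ 2^(1 - r/512) A, and 6 M^2 (2^(1 - r/256) + 2^(1 - r/512)) ≤ 1 as
2 (r / 2^14) + 5 ≤ r / 512. -/
def Stmt_NUM : Prop :=
  ∀ (r A N1 N2 : ℕ), 2 ^ 14 ≤ r → N1 * 2 ^ (r / 512 - 1) ≤ A →
    N2 * 3 ^ (r / 64 + 1) ≤ 2 ^ (r / 256 + 1 + (r / 64 + 1)) * A →
    6 * 2 ^ (r / 2 ^ 14) * (2 ^ (r / 2 ^ 14) * N1 + 2 ^ (r / 2 ^ 14) * N2) ≤ A

/-- PICK. h = 128, b = 64, m = r / 512 - 1, L = 128 (m + 1) - 1, R = r / 4, P = R + 1,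
B = r / 256 + 1, k = r / 64 + 1, K = 2^14. n = number of vertices, ord an injection to {0..n-1}, c the
winner (W below). For v, w with Near R v w fix a walk l of length ≤ R and p_i = its vertex at
min (i, length). Event E v: some u with Near (R + L) v u has x = 0, or for some w with Near R v w the
walk meets ≥ k centres and no such u has x = 0. It depends on the coordinates in
Q v = {u : Near (R + L) v u}, since the winner at p has td ≤ L to p. R + L ≤ r / 2, so Q v meets Q w
only if Near r v w: at most M = 2^(r/K) many. Count of E v ≤ M 2^-m + M 2^(B+k) / 3^k, and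
2^(B+k) / 3^k ≤ 2^(3 - r/256); 6 M (M 2^-m + M 2^(3 - r/256)) ≤ 1 for r ≥ K. LLS. -/
def Stmt_PICK : Prop :=
  ∃ K : ℕ, 0 < K ∧ ∀ (D : Type) [Finite D] (T : Triangulation D) (r : ℕ), K ≤ r →
    (∀ v : T.Vertex, Nat.card {w : T.Vertex // T.Near r v w} ≤ 2 ^ (r / K)) →
    ∃ (L n : ℕ) (δ ord : T.Vertex → ℕ) (c : T.Vertex → T.Vertex), 4 * L ≤ r ∧ (∀ u, δ u ≤ L) ∧
      (∀ u, ord u ≤ n) ∧
      (∀ v u, u ≠ c v → score T L n δ ord u v < score T L n δ ord (c v) v) ∧
      ∀ v w, T.Near (r / 4) v w →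
        ∃ l, T.IsWalk l v w ∧ l.length ≤ r / 4 ∧ 16 * ncen T c v l ≤ r / 4

/-! ### Result -/

/-- the theorem: growth version and logarithmic version -/
def Stmt_MAIN : Prop :=
  ∃ K : ℕ, (∀ (D : Type) [Finite D] (T : Triangulation D), T.EvenDegrees → ∀ r : ℕ, K ≤ r →
      T.FaceWidthAtLeast r →
      (∀ v : T.Vertex, Nat.card {w : T.Vertex // T.Near r v w} ≤ 2 ^ (r / K)) →
      T.DualThreeEdgeColourable) ∧
    (∀ (D : Type) [Finite D] (T : Triangulation D), T.EvenDegrees →
      T.FaceWidthAtLeast (K * (Nat.log 2 (Nat.card T.Vertex) + 1)) → T.DualThreeEdgeColourable)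

end ESub
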