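import Mathlib
import Pool.Agent.Work.MP_a2fb93_ev.Interface
set_option autoImplicit false

/-! Block HOL: a closed walk is a closed curve (helper46). -/

namespace ESub

open Finset Classical

theorem HOL_walk {D : Type} (T : Triangulation D) : ∀ (l : List D) (u w : T.Vertex),
    T.IsWalk l u w → ∀ (h : 0 < l.length), T.org l[0] = u ∧
      T.tgt (l[l.length - 1]'(by omega)) = w ∧
      ∀ (i : ℕ) (hi : i + 1 < l.length), T.tgt (l[i]'(by omega)) = T.org l[i + 1] := by
  intro l
  induction l with
  | nil => intro u w _ h; exact absurd h (by simp)
  | cons d l ih =>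
    intro u w hw _
    obtain ⟨h1, h2⟩ := hw
    rcases Nat.eq_zero_or_pos l.length with h0 | h0
    · have hl : l = [] := List.length_eq_zero_iff.mp h0
      subst hl
      refine ⟨h1, h2, ?_⟩
      intro i hi
      simp at hi
    · obtain ⟨a, b, c⟩ := ih (T.tgt d) w h2 h0
      refine ⟨h1, ?_, ?_⟩
      · have e : (d :: l)[(d :: l).length - 1]'(by simp) = l[l.length - 1]'(by omega) := by
          have h3 : (d :: l).length - 1 = (l.length - 1) + 1 := by
            rw [List.length_cons]; omega
          simp only [h3]
          rw [List.getElem_cons_succ]
        rw [e]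
        exact b
      · intro i hi
        rcases i with _ | i
        · show T.tgt d = T.org l[0]
          exact a.symm
        · rw [List.getElem_cons_succ, List.getElem_cons_succ]
          exact c i (by rw [List.length_cons] at hi; omega)

theorem p_HOL (h1 : Stmt_VTX) : Stmt_HOL := by
  intro D _ T n hfw l v hw hl G _ g hg
  obtain ⟨-, -, hso, -, hnext, -⟩ := h1 D T
  rcases Nat.eq_zero_or_pos l.length with h0 | h0
  · have hl0 : l = [] := List.length_eq_zero_iff.mp h0
    subst hl0
    simp
  · obtain ⟨ha, hb, hc⟩ := HOL_walk T l v v hw h0
    set k := l.length with hk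
    have hlt : ∀ i : ℕ, i % k < l.length := fun i => Nat.mod_lt _ h0
    set w : ℕ → D × Fin 3 := fun i => (l[i % k]'(hlt i), 1) with hwdef
    have hcurve : T.IsClosedCurve k w := by
      constructor
      · intro i
        simp only [hwdef, Nat.add_mod_right]
      · intro i
        rw [← hso]
        have e1 : T.stepEnd (w i) = T.next (l[i % k]'(hlt i)) := rfl
        have e2 : (w (i + 1)).1 = l[(i + 1) % k]'(hlt (i + 1)) := rfl
        rw [e1, e2, hnext]
        rcases Nat.lt_or_ge (i % k + 1) k with h2 | h2
        · have h3 : (i + 1) % k = i % k + 1 := by
            rw [Nat.add_mod, Nat.mod_eq_of_lt (show 1 < k by omega), Nat.mod_eq_of_lt h2]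
          have h4 := hc (i % k) h2
          rw [h4]
          simp only [h3]
        · have h3 : i % k = k - 1 := by
            have := Nat.mod_lt i h0
            omega
          have h5 : (i + 1) % k = 0 := by
            have h6 := Nat.div_add_mod i k
            have h7 : i + 1 = k * (i / k + 1) := by
              rw [Nat.mul_add, Nat.mul_one]
              omega
            rw [h7, Nat.mul_mod_right]
          simp only [h3, h5]
          rw [hb, ha]
    have hcon := hfw k hl w hcurve G g hg
    have hmap : (List.range k).map (fun i => T.stepVal g (w i)) = l.map g := by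
      apply List.ext_getElem
      · simp [hk]
      · intro i hi1 hi2
        have hi3 : i < k := by simpa using hi1
        rw [List.getElem_map, List.getElem_map, List.getElem_range]
        have e1 : T.stepVal g (w i) = g (l[i % k]'(hlt i)) := by
          simp [Triangulation.stepVal, hwdef]
        rw [e1]
        simp only [Nat.mod_eq_of_lt hi3]
    rw [hmap] at hcon
    exact hcon

end ESub
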