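import Pool.Agent.Work.MP_a2fb93_ev.Interface
set_option autoImplicit false

/-! Block VTX: vertices and walks. -/

namespace ESub

open Finset Classical

namespace Triangulation

variable {D : Type}

theorem VTX_rot_inj (T : Triangulation D) : Function.Injective T.rot := by
  intro a b h
  unfold rot at h
  have h1 : T.next (T.next a) = T.next (T.next b) := by
    have := congrArg T.inv h
    rwa [T.inv_inv, T.inv_inv] at this
  have h2 := congrArg T.next h1
  rwa [T.next_next_next, T.next_next_next] at h2

theorem VTX_symm [Finite D] (T : Triangulation D) {d e : D} (h : T.SameOrigin d e) :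
    T.SameOrigin e d := by
  obtain ⟨n, hn⟩ := h
  obtain ⟨k, hk, hkd⟩ := T.VTX_rot_inj.mem_periodicPts d
  refine ⟨k * n - n, ?_⟩
  rw [← hn, ← Function.iterate_add_apply]
  have h1 : k * n - n + n = k * n := Nat.sub_add_cancel (Nat.le_mul_of_pos_left n hk)
  rw [h1]
  exact (hkd.mul_const n)

theorem VTX_iff [Finite D] (T : Triangulation D) (d e : D) :
    T.org d = T.org e ↔ T.SameOrigin d e := by
  constructor
  · intro h
    have h1 := Quot.eqvGen_exact h
    clear h
    induction h1 with
    | rel x y h => exact h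
    | refl x => exact ⟨0, rfl⟩
    | symm x y _ ih => exact T.VTX_symm ih
    | trans x y z h1 h2 ih1 ih2 =>
      obtain ⟨n, hn⟩ := ih1
      obtain ⟨m, hm⟩ := ih2
      exact ⟨m + n, by rw [Function.iterate_add_apply, hn, hm]⟩
  · intro h
    exact Quot.sound h

theorem VTX_rev_cons (T : Triangulation D) (d : D) (l : List D) :
    T.rev (d :: l) = T.rev l ++ [T.inv d] := by
  simp [rev]

theorem VTX_append (T : Triangulation D) : ∀ (l l' : List D) (u v w : T.Vertex),
    T.IsWalk l u v → T.IsWalk l' v w → T.IsWalk (l ++ l') u w := by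
  intro l
  induction l with
  | nil =>
    intro l' u v w h h'
    have : u = v := h
    subst this
    exact h'
  | cons d l ih =>
    intro l' u v w h h'
    exact ⟨h.1, ih l' _ v w h.2 h'⟩

theorem VTX_split (T : Triangulation D) : ∀ (l l' : List D) (u w : T.Vertex),
    T.IsWalk (l ++ l') u w → ∃ v, T.IsWalk l u v ∧ T.IsWalk l' v w := by
  intro l
  induction l with
  | nil =>
    intro l' u w h
    exact ⟨u, rfl, h⟩
  | cons d l ih =>
    intro l' u w h
    obtain ⟨v, h1, h2⟩ := ih l' _ w h.2
    exact ⟨v, ⟨h.1, h1⟩, h2⟩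

theorem VTX_tgt_inv (T : Triangulation D) (d : D) : T.tgt (T.inv d) = T.org d := by
  unfold tgt
  rw [T.inv_inv]

theorem VTX_rev (T : Triangulation D) : ∀ (l : List D) (u v : T.Vertex),
    T.IsWalk l u v → T.IsWalk (T.rev l) v u := by
  intro l
  induction l with
  | nil =>
    intro u v h
    exact (show u = v from h).symm
  | cons d l ih =>
    intro u v h
    rw [VTX_rev_cons]
    refine T.VTX_append _ _ _ _ _ (ih _ _ h.2) ?_
    refine ⟨rfl, ?_⟩
    show T.tgt (T.inv d) = u
    rw [VTX_tgt_inv]
    exact h.1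

theorem VTX_near (T : Triangulation D) : ∀ (n : ℕ) (v w : T.Vertex),
    T.Near n v w ↔ ∃ l : List D, l.length ≤ n ∧ T.IsWalk l v w := by
  intro n
  induction n with
  | zero =>
    intro v w
    constructor
    · intro h
      exact ⟨[], le_rfl, h⟩
    · rintro ⟨l, hl, h⟩
      have : l = [] := List.eq_nil_of_length_eq_zero (by omega)
      subst this
      exact h
  | succ n ih =>
    intro v w
    constructor
    · rintro (h | ⟨d, h1, h2⟩)
      · obtain ⟨l, hl, h3⟩ := (ih v w).1 h
        exact ⟨l, by omega, h3⟩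
      · obtain ⟨l, hl, h3⟩ := (ih _ w).1 h2
        exact ⟨d :: l, by simp only [List.length_cons]; omega, h1, h3⟩
    · rintro ⟨l, hl, h⟩
      cases l with
      | nil => exact Or.inl ((ih v w).2 ⟨[], by simp, h⟩)
      | cons d l =>
        simp only [List.length_cons] at hl
        exact Or.inr ⟨d, h.1, (ih _ w).2 ⟨l, by omega, h.2⟩⟩

end Triangulation

theorem p_VTX : Stmt_VTX := by
  intro D _ T
  refine ⟨?_, ?_, T.VTX_iff, ?_, ?_, ?_, T.VTX_tgt_inv, T.VTX_append, T.VTX_rev, T.VTX_split,
    T.VTX_near, ?_⟩
  · exact Finite.of_surjective (Quot.mk T.SameOrigin) (Quot.mk_surjective)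
  · intro v
    exact Quot.exists_rep v
  · intro d
    exact (Quot.sound (⟨1, rfl⟩ : T.SameOrigin d (T.rot d))).symm
  · intro d
    refine Quot.sound (⟨1, ?_⟩ : T.SameOrigin (T.next d) (T.inv d))
    show T.inv (T.next (T.next (T.next d))) = T.inv d
    rw [T.next_next_next]
  · intro d
    exact (Quot.sound (⟨1, rfl⟩ : T.SameOrigin d (T.rot d))).symm
  · intro G _ g hg l
    induction l with
    | nil => simp [Triangulation.rev]
    | cons d l ih =>
      rw [T.VTX_rev_cons, List.map_append, List.prod_append, ih]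
      simp [hg.inv]

end ESub
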