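import Pool.Agent.Work.MP_a2fb93_ev.Interface
set_option autoImplicit false

/-! Block COL (helper7): rounding and colouring. -/

namespace ESub

open Finset Classical

/-- the map z ↦ s z + 2 t + (1 - s) / 2 -/
def COL_M (a : Aff ℤ) (z : ℤ) : ℤ := (a.s : ℤ) * z + 2 * a.t + (1 - (a.s : ℤ)) / 2

theorem COL_M_pos {a : Aff ℤ} (h : a.s = 1) (z : ℤ) : COL_M a z = z + 2 * a.t := by
  unfold COL_M
  rw [h]
  simp

theorem COL_M_neg {a : Aff ℤ} (h : a.s = -1) (z : ℤ) : COL_M a z = -z + 2 * a.t + 1 := by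
  unfold COL_M
  rw [h]
  simp

theorem COL_M_mul (a b : Aff ℤ) (z : ℤ) : COL_M (a * b) z = COL_M a (COL_M b z) := by
  rcases Int.units_eq_one_or a.s with h | h <;> rcases Int.units_eq_one_or b.s with h' | h'
  · rw [COL_M_pos (by rw [Aff.mul_s, h, h', one_mul]), COL_M_pos h, COL_M_pos h', Aff.mul_t, h]
    simp only [Units.val_one, Int.cast_one, one_mul]
    ring
  · rw [COL_M_neg (by rw [Aff.mul_s, h, h', one_mul]), COL_M_pos h, COL_M_neg h', Aff.mul_t, h]
    simp only [Units.val_one, Int.cast_one, one_mul]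
    ring
  · rw [COL_M_neg (by rw [Aff.mul_s, h, h', mul_one]), COL_M_neg h, COL_M_pos h', Aff.mul_t, h]
    simp only [Units.val_neg, Units.val_one, Int.cast_neg, Int.cast_one]
    ring
  · rw [COL_M_pos (by rw [Aff.mul_s, h, h']; rfl), COL_M_neg h, COL_M_neg h', Aff.mul_t, h]
    simp only [Units.val_neg, Units.val_one, Int.cast_neg, Int.cast_one]
    ring

theorem COL_M_one (z : ℤ) : COL_M 1 z = z := by
  rw [COL_M_pos Aff.one_s, Aff.one_t]
  ring

/-- different and at distance at most 2 -/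
def COL_adj (x y : ℤ) : Prop := x ≠ y ∧ x - y ≤ 2 ∧ y - x ≤ 2

/-- the colour of two heights -/
def COL_cr (x y : ℤ) : Fin 3 :=
  if x - y = 2 ∨ y - x = 2 then 2 else if min x y % 2 = 0 then 0 else 1

theorem COL_adj_M (a : Aff ℤ) {x y : ℤ} (h : COL_adj x y) : COL_adj (COL_M a x) (COL_M a y) := by
  unfold COL_adj at h ⊢
  rcases Int.units_eq_one_or a.s with h1 | h1
  · rw [COL_M_pos h1, COL_M_pos h1]
    omega
  · rw [COL_M_neg h1, COL_M_neg h1]
    omega

theorem COL_cr_eq {x y x' y' : ℤ} (h1 : (x - y = 2 ∨ y - x = 2) ↔ (x' - y' = 2 ∨ y' - x' = 2))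
    (h2 : ¬ (x - y = 2 ∨ y - x = 2) → (min x y % 2 = 0 ↔ min x' y' % 2 = 0)) :
    COL_cr x y = COL_cr x' y' := by
  unfold COL_cr
  by_cases h : x - y = 2 ∨ y - x = 2
  · rw [if_pos h, if_pos (h1.1 h)]
  · rw [if_neg h, if_neg (fun h' => h (h1.2 h'))]
    by_cases h3 : min x y % 2 = 0
    · rw [if_pos h3, if_pos ((h2 h).1 h3)]
    · rw [if_neg h3, if_neg (fun h' => h3 ((h2 h).2 h'))]

theorem COL_cr_symm (x y : ℤ) : COL_cr x y = COL_cr y x := by
  apply COL_cr_eq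
  · omega
  · omega

theorem COL_cr_M (a : Aff ℤ) {x y : ℤ} (h : COL_adj x y) :
    COL_cr (COL_M a x) (COL_M a y) = COL_cr x y := by
  unfold COL_adj at h
  rcases Int.units_eq_one_or a.s with h1 | h1
  · rw [COL_M_pos h1, COL_M_pos h1]
    apply COL_cr_eq
    · omega
    · omega
  · rw [COL_M_neg h1, COL_M_neg h1]
    apply COL_cr_eq
    · omega
    · omega

theorem COL_cr_ne {a b c : ℤ} (h1 : COL_adj a b) (h2 : COL_adj b c) (h3 : COL_adj c a) :
    COL_cr a b ≠ COL_cr b c := by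
  unfold COL_adj at h1 h2 h3
  unfold COL_cr
  split_ifs <;> first | (exfalso; omega) | decide

theorem COL_round (φ : ℝ) (c : ZMod 3) : ∃ N : ℤ, (N : ZMod 3) = c ∧ |(N : ℝ) - φ| ≤ 3 / 2 := by
  obtain ⟨c0, hc0⟩ := ZMod.intCast_surjective c
  refine ⟨c0 + 3 * round ((φ - c0) / 3), ?_, ?_⟩
  · have h3 : ((3 : ℤ) : ZMod 3) = 0 := by decide
    rw [Int.cast_add, Int.cast_mul, h3, zero_mul, add_zero, hc0]
  · have h := abs_sub_round ((φ - c0) / 3)
    rw [abs_le] at h ⊢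
    push_cast
    constructor <;> linarith [h.1, h.2]

theorem COL_mod (a : Aff ℤ) (z : ℤ) (y : ZMod 3) (h : (z : ZMod 3) = 2 * y + 2) :
    ((COL_M a z : ℤ) : ZMod 3) = 2 * a.red.act y + 2 := by
  rcases Int.units_eq_one_or a.s with h1 | h1
  · rw [COL_M_pos h1]
    simp only [Aff.red, Aff.act, h1, Units.val_one, Int.cast_one, Int.cast_add, Int.cast_mul,
      Int.cast_ofNat, h]
    ring
  · rw [COL_M_neg h1]
    simp only [Aff.red, Aff.act, h1, Units.val_neg, Units.val_one, Int.cast_neg, Int.cast_one,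
      Int.cast_add, Int.cast_mul, Int.cast_ofNat, h]
    have h3 : (3 : ZMod 3) = 0 := by decide
    linear_combination (-1 : ZMod 3) * h3

theorem COL_inj : ∀ y y' : ZMod 3, 2 * y + 2 = 2 * y' + 2 → y = y' := by decide

theorem COL_near (a : Aff ℤ) (n z : ℤ) (f g : ℝ) (c y : ZMod 3) (hn : (n : ZMod 3) = 2 * c + 2)
    (hz : (z : ZMod 3) = 2 * y + 2) (h : a.red.act y ≠ c)
    (hn' : |(n : ℝ) - (2 * f + 1 / 2)| ≤ 3 / 2) (hz' : |(z : ℝ) - (2 * g + 1 / 2)| ≤ 3 / 2)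
    (hf : |f - ((((a.s : ℤ) : ℝ)) * g + ((a.t : ℤ) : ℝ))| ≤ 1 / 4) : COL_adj n (COL_M a z) := by
  have hne : ∀ k : ℤ, n ≠ COL_M a z + 3 * k := by
    intro k hk
    have h1 := congrArg (Int.cast : ℤ → ZMod 3) hk
    have h3 : ((3 : ℤ) : ZMod 3) = 0 := by decide
    rw [Int.cast_add, Int.cast_mul, h3, zero_mul, add_zero, hn, COL_mod a z y hz] at h1
    exact h (COL_inj _ _ h1).symm
  have hb : n - COL_M a z < 4 ∧ COL_M a z - n < 4 := by
    rw [abs_le] at hn' hz' hf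
    rcases Int.units_eq_one_or a.s with h1 | h1
    · rw [COL_M_pos h1]
      rw [h1] at hf
      simp only [Units.val_one, Int.cast_one, one_mul] at hf
      constructor
      · have : ((n - (z + 2 * a.t) : ℤ) : ℝ) < ((4 : ℤ) : ℝ) := by
          push_cast
          linarith [hn'.1, hn'.2, hz'.1, hz'.2, hf.1, hf.2]
        exact_mod_cast this
      · have : (((z + 2 * a.t) - n : ℤ) : ℝ) < ((4 : ℤ) : ℝ) := by
          push_cast
          linarith [hn'.1, hn'.2, hz'.1, hz'.2, hf.1, hf.2]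
        exact_mod_cast this
    · rw [COL_M_neg h1]
      rw [h1] at hf
      simp only [Units.val_neg, Units.val_one, Int.cast_neg, Int.cast_one, neg_mul, one_mul] at hf
      constructor
      · have : ((n - (-z + 2 * a.t + 1) : ℤ) : ℝ) < ((4 : ℤ) : ℝ) := by
          push_cast
          linarith [hn'.1, hn'.2, hz'.1, hz'.2, hf.1, hf.2]
        exact_mod_cast this
      · have : (((-z + 2 * a.t + 1) - n : ℤ) : ℝ) < ((4 : ℤ) : ℝ) := by
          push_cast
          linarith [hn'.1, hn'.2, hz'.1, hz'.2, hf.1, hf.2]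
        exact_mod_cast this
  have h0 := hne 0
  have h1 := hne 1
  have h2 := hne (-1)
  unfold COL_adj
  omega

theorem p_COL (hVTX : Stmt_VTX) : Stmt_COL := by
  intro D _ T ρ cl F hρ hcl hF
  obtain ⟨-, -, -, -, hnx, hnn, hti, -⟩ := hVTX D T
  have hN : ∀ v : T.Vertex, ∃ N : ℤ, (N : ZMod 3) = 2 * cl v + 2 ∧
      |(N : ℝ) - (2 * F v + 1 / 2)| ≤ 3 / 2 := fun v => COL_round _ _
  choose N hN1 hN2 using hN
  have hadj : ∀ d, COL_adj (N (T.org d)) (COL_M (ρ d) (N (T.tgt d))) := fun d =>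
    COL_near (ρ d) _ _ _ _ _ _ (hN1 _) (hN1 _) (hcl d) (hN2 _) (hN2 _) (hF d)
  refine ⟨fun d => COL_cr (N (T.org d)) (COL_M (ρ d) (N (T.tgt d))), ?_, ?_⟩
  · intro d
    show COL_cr (N (T.tgt d)) (COL_M (ρ (T.inv d)) (N (T.tgt (T.inv d)))) = _
    have h1 : COL_adj (N (T.tgt d)) (COL_M (ρ (T.inv d)) (N (T.tgt (T.inv d)))) := hadj (T.inv d)
    rw [← COL_cr_M (ρ d) h1, ← COL_M_mul, hρ.inv, mul_inv_cancel, COL_M_one, hti, COL_cr_symm]
  · intro d
    have e1 : T.org (T.next d) = T.tgt d := hnx d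
    have e2 : T.org (T.next (T.next d)) = T.tgt (T.next d) := hnx _
    have e3 : T.tgt (T.next (T.next d)) = T.org d := hnn d
    have a1 := hadj d
    have a2 := hadj (T.next d)
    have a3 := hadj (T.next (T.next d))
    have a2' := COL_adj_M (ρ d) a2
    have a3' := COL_adj_M (ρ d) (COL_adj_M (ρ (T.next d)) a3)
    have c2 := COL_cr_M (ρ d) a2
    have c3 := (COL_cr_M (ρ d) (COL_adj_M (ρ (T.next d)) a3)).trans
      (COL_cr_M (ρ (T.next d)) a3)
    have e4 : COL_M (ρ d) (COL_M (ρ (T.next d)) (COL_M (ρ (T.next (T.next d)))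
        (N (T.tgt (T.next (T.next d)))))) = N (T.org d) := by
      rw [← COL_M_mul, ← COL_M_mul, hρ.face, COL_M_one, e3]
    rw [e4] at a3' c3
    rw [e1] at a2' c2
    rw [e2] at a3' c3
    dsimp only
    rw [e1, e2, ← c2, ← c3]
    refine ⟨COL_cr_ne a1 a2' a3', ?_, COL_cr_ne a2' a3' a1⟩
    exact (COL_cr_ne a3' a1 a2').symm

end ESub
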