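import Pool.Agent.Work.MP_a2fb93_ev.Interface
set_option autoImplicit false

/-! Block CONN: alternating signs and the connection over ZMod 3. -/

namespace ESub

open Finset Classical

theorem CONN_rot_inj {D : Type} (T : Triangulation D) : Function.Injective T.rot := by
  intro a b h
  unfold Triangulation.rot at h
  have h1 : T.next (T.next a) = T.next (T.next b) := by
    have := congrArg T.inv h
    rwa [T.inv_inv, T.inv_inv] at this
  have h2 := congrArg T.next h1
  rwa [T.next_next_next, T.next_next_next] at h2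

theorem CONN_rot_next {D : Type} (T : Triangulation D) (d : D) : T.rot (T.next d) = T.inv d := by
  unfold Triangulation.rot
  rw [T.next_next_next]

theorem CONN_par_le {D : Type} (T : Triangulation D) (hE : T.EvenDegrees) (r : D) {a b : ℕ} (hab : a ≤ b)
    (h : T.rot^[a] r = T.rot^[b] r) : (-1 : ℤˣ) ^ a = (-1) ^ b := by
  obtain ⟨c, rfl⟩ := Nat.exists_eq_add_of_le hab
  rw [Function.iterate_add_apply] at h
  have h1 : r = T.rot^[c] r := (CONN_rot_inj T).iterate a h
  have h2 := hE r c h1.symm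
  rw [pow_add, h2.neg_one_pow, mul_one]

theorem CONN_par {D : Type} (T : Triangulation D) (hE : T.EvenDegrees) (r : D) {a b : ℕ}
    (h : T.rot^[a] r = T.rot^[b] r) : (-1 : ℤˣ) ^ a = (-1) ^ b := by
  rcases le_total a b with hab | hab
  · exact CONN_par_le T hE r hab h
  · exact (CONN_par_le T hE r hab h.symm).symm

/-- the labels -/
noncomputable def CONN_G (a b : ℤˣ) : Aff (ZMod 3) :=
  ⟨-(a * b), if a = -b then ((b : ℤ) : ZMod 3) else 1 - ((b : ℤ) : ZMod 3)⟩

theorem CONN_ne1 : ¬ ((1 : ℤˣ) = -1) := by decide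
theorem CONN_ne2 : ¬ ((-1 : ℤˣ) = 1) := by decide

theorem CONN_inv (a b : ℤˣ) : CONN_G b a = (CONN_G a b)⁻¹ := by
  rcases Int.units_eq_one_or a with rfl | rfl <;> rcases Int.units_eq_one_or b with rfl | rfl <;>
    (ext <;> simp [CONN_G, CONN_ne1, CONN_ne2])

theorem CONN_face (a b c : ℤˣ) : CONN_G a (-b) * CONN_G b (-c) * CONN_G c (-a) = 1 := by
  rcases Int.units_eq_one_or a with rfl | rfl <;> rcases Int.units_eq_one_or b with rfl | rfl <;>
    rcases Int.units_eq_one_or c with rfl | rfl <;>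
    (ext <;> simp [CONN_G, CONN_ne1, CONN_ne2] <;> decide)

theorem CONN_act (a b : ℤˣ) : (CONN_G a b).act 2 ≠ 2 := by
  rcases Int.units_eq_one_or a with rfl | rfl <;> rcases Int.units_eq_one_or b with rfl | rfl <;>
    (simp [CONN_G, Aff.act, CONN_ne1, CONN_ne2] <;> decide)

theorem p_CONN (hVTX : Stmt_VTX) : Stmt_CONN := by
  intro D _ T hE
  obtain ⟨-, hsurj, hiff, hrot, -⟩ := hVTX D T
  choose rep hrep using hsurj
  have hn : ∀ d : D, ∃ n : ℕ, T.rot^[n] (rep (T.org d)) = d := by
    intro d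
    exact (hiff _ _).1 (hrep (T.org d))
  choose n hn using hn
  obtain ⟨σ, hσ⟩ : ∃ σ : D → ℤˣ, σ = fun d => (-1) ^ n d := ⟨_, rfl⟩
  have hσr : ∀ d, σ (T.rot d) = -σ d := by
    intro d
    rw [hσ]
    have h1 := hn (T.rot d)
    rw [hrot d] at h1
    have h2 : T.rot^[n d + 1] (rep (T.org d)) = T.rot d := by
      rw [Function.iterate_succ_apply', hn d]
    have h3 := CONN_par T hE (rep (T.org d)) (h1.trans h2.symm)
    show (-1) ^ n (T.rot d) = -(-1) ^ n d
    rw [h3, pow_succ]
    simp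
  have hσi : ∀ d, σ (T.inv d) = -σ (T.next d) := by
    intro d
    rw [← CONN_rot_next, hσr]
  refine ⟨fun d => CONN_G (σ d) (σ (T.inv d)), ⟨?_, ?_⟩, fun d => CONN_act _ _⟩
  · intro d
    show CONN_G (σ (T.inv d)) (σ (T.inv (T.inv d))) = _
    rw [T.inv_inv]
    exact CONN_inv _ _
  · intro d
    show CONN_G (σ d) (σ (T.inv d)) * CONN_G (σ (T.next d)) (σ (T.inv (T.next d))) *
      CONN_G (σ (T.next (T.next d))) (σ (T.inv (T.next (T.next d)))) = 1
    rw [hσi d, hσi (T.next d), hσi (T.next (T.next d)), T.next_next_next]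
    exact CONN_face _ _ _

end ESub
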