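import Pool.Agent.Work.MP_a2fb93_ev.Interface
set_option autoImplicit false

/-! Block CLUS (helper34). -/

namespace ESub

open Finset Classical

theorem CLUS_shift {D : Type} (T : Triangulation D) (L n : ℕ) (δ ord : T.Vertex → ℕ)
    (u v v' : T.Vertex) (h : T.td L u v ≤ T.td L u v' + 1) :
    score T L n δ ord u v' ≤ score T L n δ ord u v + ((n : ℤ) + 1) := by
  unfold score
  have h' : (T.td L u v : ℤ) ≤ (T.td L u v' : ℤ) + 1 := by exact_mod_cast h
  have hn : (0 : ℤ) ≤ (n : ℤ) + 1 := by positivity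
  have := mul_le_mul_of_nonneg_left h' hn
  linarith

theorem CLUS_eq {D : Type} (T : Triangulation D) (L n : ℕ) (δ ord : T.Vertex → ℕ)
    (u v v' : T.Vertex) (h : T.td L u v = T.td L u v' + 1) :
    score T L n δ ord u v' = score T L n δ ord u v + ((n : ℤ) + 1) := by
  unfold score
  rw [h]
  push_cast
  ring

theorem p_CLUS (hVTX : Stmt_VTX) (hTDF : Stmt_TDF) : Stmt_CLUS := by
  intro D _ T L n δ ord c hδ hord hc
  obtain ⟨t1, t2, t3, -, t5, t6, -⟩ := hTDF D T L
  have hL : ∀ v, T.td L (c v) v ≤ L := by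
    intro v
    by_contra hcon
    have e1 : T.td L (c v) v = L + 1 := by
      have := t1 (c v) v
      omega
    have hne : v ≠ c v := by
      intro h
      rw [← h, t2 v] at e1
      omega
    have e2 := hc v v hne
    unfold score at e2
    rw [e1, t2 v] at e2
    have e3 : (δ (c v) : ℤ) ≤ (L : ℤ) := by exact_mod_cast hδ (c v)
    have e4 : (ord (c v) : ℤ) ≤ (n : ℤ) := by exact_mod_cast hord (c v)
    have hn : (0 : ℤ) ≤ (n : ℤ) + 1 := by positivity
    have e5 : ((n : ℤ) + 1) * ((δ (c v) : ℤ) - ((L + 1 : ℕ) : ℤ)) ≤ ((n : ℤ) + 1) * (-1) := by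
      apply mul_le_mul_of_nonneg_left _ hn
      push_cast
      linarith
    have e6 : (0 : ℤ) ≤ ((n : ℤ) + 1) * ((δ v : ℤ) - ((0 : ℕ) : ℤ)) := by
      apply mul_nonneg hn
      have : (0 : ℤ) ≤ (δ v : ℤ) := by positivity
      push_cast
      linarith
    have e7 : (0 : ℤ) ≤ (ord v : ℤ) := by positivity
    linarith
  have key : ∀ k : ℕ, ∀ v, T.td L (c v) v = k → k ≤ L → ∃ l : List D, T.IsWalk l v (c v) ∧
      l.length ≤ k ∧ ∀ d ∈ l, c (T.org d) = c v ∧ c (T.tgt d) = c v := by
    intro k
    induction k with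
    | zero =>
      intro v hv _
      have := t5 (c v) v hv
      refine ⟨[], this.symm, le_refl _, ?_⟩
      intro d hd
      simp at hd
    | succ k ih =>
      intro v hv hk
      obtain ⟨d, hd, hdk⟩ := t6 (c v) v k hv hk
      have hcv : c (T.tgt d) = c v := by
        by_contra hne
        have s1 := hc (T.tgt d) (c v) (Ne.symm hne)
        have s2 := hc v (c (T.tgt d)) hne
        have s3 := CLUS_eq T L n δ ord (c v) v (T.tgt d) (by rw [hv, hdk])
        have s4 := CLUS_shift T L n δ ord (c (T.tgt d)) v (T.tgt d) (by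
          have := t3 (c (T.tgt d)) d
          rw [hd] at this
          exact this)
        linarith
      obtain ⟨l, hl, hlen, hall⟩ := ih (T.tgt d) (by rw [hcv]; exact hdk) (by omega)
      refine ⟨d :: l, ⟨hd, ?_⟩, ?_, ?_⟩
      · rw [hcv] at hl
        exact hl
      · rw [List.length_cons]
        omega
      · intro e he
        rw [List.mem_cons] at he
        rcases he with rfl | he
        · exact ⟨by rw [hd], hcv⟩
        · rw [← hcv]
          exact hall e he
  choose! γ h1 h2 h3 using fun v => key (T.td L (c v) v) v rfl (hL v)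
  exact ⟨γ, h1, fun v => (h2 v).trans (hL v), h3⟩

end ESub
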