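import Pool.Agent.Work.MP_a2fb93_ev.Interface
set_option autoImplicit false

/-! # CNT: the counting lemma (few outcomes have many winners) -/

namespace ESub

open Finset Classical

theorem CNT_size (x : ℕ) (hx : x ≠ 0) : Nat.size (x / 2) + 1 = Nat.size x := by
  apply le_antisymm
  · rw [Nat.succ_le_iff, Nat.lt_size]
    rcases Nat.eq_zero_or_pos (Nat.size (x / 2)) with h0 | h0
    · rw [h0, pow_zero]; omega
    · have h1 : Nat.size (x / 2) - 1 < Nat.size (x / 2) := by omega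
      rw [Nat.lt_size] at h1
      have h2 : 2 ^ Nat.size (x / 2) = 2 ^ (Nat.size (x / 2) - 1) * 2 := by
        rw [← pow_succ]
        congr 1
        omega
      omega
  · rw [Nat.size_le, pow_succ]
    have := Nat.lt_size_self (x / 2)
    omega

section

variable {V : Type} {h m : ℕ}

/-- the modified outcome -/
noncomputable def CNT_mod (ω : Out V h m) (t : V → Fin 3) : Out V h m := fun u =>
  if t u = 2 then ((ω u).1, ⟨((ω u).2 : ℕ) / 2, lt_of_le_of_lt (Nat.div_le_self _ _) (ω u).2.2⟩)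
  else ω u

theorem CNT_mod_ne {ω : Out V h m} {t : V → Fin 3} {u : V} (hu : t u ≠ 2) :
    CNT_mod ω t u = ω u := if_neg hu

theorem CNT_mod_eq {ω : Out V h m} {t : V → Fin 3} {u : V} (hu : t u = 2) :
    (CNT_mod ω t u).1 = (ω u).1 ∧ ((CNT_mod ω t u).2 : ℕ) = ((ω u).2 : ℕ) / 2 := by
  rw [CNT_mod, if_pos hu]
  exact ⟨rfl, rfl⟩

theorem CNT_shift_ne {ω : Out V h m} {t : V → Fin 3} {u : V} (hu : t u ≠ 2) :
    shift (CNT_mod ω t) u = shift ω u := by
  rw [shift, shift, CNT_mod_ne hu]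

theorem CNT_shift_eq {ω : Out V h m} {t : V → Fin 3} {u : V} (hu : t u = 2)
    (hx : ((ω u).2 : ℕ) ≠ 0) : shift (CNT_mod ω t) u = shift ω u + h := by
  obtain ⟨h1, h2⟩ := CNT_mod_eq (ω := ω) hu
  rw [shift, shift, h1, h2]
  have h3 := CNT_size _ hx
  have h4 : Nat.size ((ω u).2 : ℕ) ≤ m := Nat.size_le.2 (ω u).2.2
  have h5 : m - Nat.size (((ω u).2 : ℕ) / 2) = m - Nat.size ((ω u).2 : ℕ) + 1 := by omega
  rw [h5, mul_add, mul_one]
  omega

end

section

variable {V : Type} {b m P B n : ℕ} {g : V → ℕ → ℕ} {ord : V → ℕ}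
  {W : Out V (2 * b) m → ℕ → V}

/-- the score at a position -/
def CNT_sc (n : ℕ) (g : V → ℕ → ℕ) (ord : V → ℕ) (ω : Out V (2 * b) m) (u : V) (i : ℕ) : ℤ :=
  ((n : ℤ) + 1) * ((shift ω u : ℤ) - (g u i : ℤ)) + (ord u : ℤ)

theorem CNT_K1 (hW : ∀ (ω : Out V (2 * b) m) i u, i < P → u ≠ W ω i →
      CNT_sc n g ord ω u i < CNT_sc n g ord ω (W ω i) i)
    {ω : Out V (2 * b) m} {t : V → Fin 3} (hgood : ∀ i < P, ((ω (W ω i)).2 : ℕ) ≠ 0)
    (hS : ∀ u, t u = 2 → ∃ i < P, W ω i = u) {i : ℕ} (hi : i < P) (ht : t (W ω i) = 2) :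
    W (CNT_mod ω t) i = W ω i := by
  by_contra hne
  have h1 := hW (CNT_mod ω t) i (W ω i) hi (fun h => hne h.symm)
  have h2 := hW ω i (W (CNT_mod ω t) i) hi hne
  have h3 := CNT_shift_eq (ω := ω) ht (hgood i hi)
  have h4 : (shift (CNT_mod ω t) (W (CNT_mod ω t) i) : ℤ) ≤
      (shift ω (W (CNT_mod ω t) i) : ℤ) + ((2 * b : ℕ) : ℤ) := by
    by_cases hv : t (W (CNT_mod ω t) i) = 2
    · obtain ⟨j, hj, hjv⟩ := hS _ hv
      have h5 := CNT_shift_eq (ω := ω) hv (by rw [← hjv]; exact hgood j hj)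
      rw [h5]
      push_cast
      exact le_rfl
    · rw [CNT_shift_ne hv]
      have : (0 : ℤ) ≤ ((2 * b : ℕ) : ℤ) := Int.natCast_nonneg _
      linarith
  simp only [CNT_sc] at h1 h2
  rw [h3] at h1
  push_cast at h1 h4
  have hn : (0 : ℤ) ≤ (n : ℤ) + 1 := by positivity
  have h6 := mul_le_mul_of_nonneg_left h4 hn
  nlinarith

theorem CNT_K2 (hb : 0 < b)
    (hg : ∀ u i j, i ≤ j → g u i ≤ g u j + (j - i) ∧ g u j ≤ g u i + (j - i))
    (hW : ∀ (ω : Out V (2 * b) m) i u, i < P → u ≠ W ω i →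
      CNT_sc n g ord ω u i < CNT_sc n g ord ω (W ω i) i)
    {ω : Out V (2 * b) m} {t : V → Fin 3} (hgood : ∀ i < P, ((ω (W ω i)).2 : ℕ) ≠ 0)
    {i j : ℕ} (hi : i < P) (hj : j < P) (hij : i / b = j / b) (ht : t (W ω i) = 2) :
    t (W (CNT_mod ω t) j) = 2 := by
  by_contra hv
  have hne : W ω i ≠ W (CNT_mod ω t) j := by
    intro h
    rw [← h] at hv
    exact hv ht
  have h1 := hW (CNT_mod ω t) j (W ω i) hj hne
  have h2 := hW ω i (W (CNT_mod ω t) j) hi (fun h => hne h.symm)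
  have h3 := CNT_shift_eq (ω := ω) ht (hgood i hi)
  simp only [CNT_sc] at h1 h2
  rw [h3, CNT_shift_ne hv] at h1
  -- the positions are close
  have hd : (∀ u, (g u i : ℤ) ≤ g u j + (b - 1)) ∧ (∀ u, (g u j : ℤ) ≤ g u i + (b - 1)) := by
    have e1 := Nat.div_add_mod i b
    have e2 := Nat.div_add_mod j b
    have e3 := Nat.mod_lt i hb
    have e4 := Nat.mod_lt j hb
    rw [hij] at e1
    constructor
    · intro u
      rcases le_total i j with h | h
      · have := (hg u i j h).1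
        omega
      · have := (hg u j i h).2
        omega
    · intro u
      rcases le_total i j with h | h
      · have := (hg u i j h).2
        omega
      · have := (hg u j i h).1
        omega
  have a1 := hd.2 (W ω i)
  have a2 := hd.1 (W (CNT_mod ω t) j)
  have hn : (0 : ℤ) < (n : ℤ) + 1 := by positivity
  push_cast at h1
  -- scores
  have b1 := mul_le_mul_of_nonneg_left a1 hn.le
  have b2 := mul_le_mul_of_nonneg_left a2 hn.le
  nlinarith

end

theorem CNT_inj {V : Type} [Fintype V] (b m P B n : ℕ) (g : V → ℕ → ℕ) (ord : V → ℕ)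
    (W : Out V (2 * b) m → ℕ → V) (hb : 0 < b) (hP : P ≤ B * b)
    (hg : ∀ u i j, i ≤ j → g u i ≤ g u j + (j - i) ∧ g u j ≤ g u i + (j - i))
    (hW : ∀ (ω : Out V (2 * b) m) i u, i < P → u ≠ W ω i →
      CNT_sc n g ord ω u i < CNT_sc n g ord ω (W ω i) i)
    (A : Finset (Out V (2 * b) m)) (hA : ∀ ω ∈ A, ∀ i < P, ((ω (W ω i)).2 : ℕ) ≠ 0) :
    (A.sigma (fun ω => Fintype.piFinset
      (fun u => if u ∈ (range P).image (W ω) then (univ : Finset (Fin 3)) else {0, 1}))).card ≤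
      Fintype.card (Out V (2 * b) m) * 2 ^ B * 2 ^ (Fintype.card V) := by
  have hcard : (univ : Finset (Out V (2 * b) m × Finset (Fin B) × (V → Bool))).card =
      Fintype.card (Out V (2 * b) m) * 2 ^ B * 2 ^ (Fintype.card V) := by
    have h0 : Fintype.card (V → Bool) = 2 ^ (Fintype.card V) := by
      rw [Fintype.card_fun, Fintype.card_bool]
    rw [Finset.card_univ, Fintype.card_prod, Fintype.card_prod, Fintype.card_finset,
      Fintype.card_fin, h0, mul_assoc]
  rw [← hcard]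
  have hmem : ∀ x : (Σ _ : Out V (2 * b) m, V → Fin 3), x ∈ A.sigma (fun ω => Fintype.piFinset
      (fun u => if u ∈ (range P).image (W ω) then (univ : Finset (Fin 3)) else {0, 1})) →
      x.1 ∈ A ∧ ∀ u, x.2 u = 2 → ∃ i < P, W x.1 i = u := by
    intro x hx
    rw [Finset.mem_sigma, Fintype.mem_piFinset] at hx
    refine ⟨hx.1, fun u hu => ?_⟩
    by_contra hne
    have h1 := hx.2 u
    rw [if_neg, hu] at h1
    · simp at h1
    · intro h2
      rw [Finset.mem_image] at h2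
      obtain ⟨i, hi, hiu⟩ := h2
      exact hne ⟨i, Finset.mem_range.1 hi, hiu⟩
  -- the set is determined by the blocks
  have key : ∀ x : (Σ _ : Out V (2 * b) m, V → Fin 3), x.1 ∈ A →
      (∀ u, x.2 u = 2 → ∃ i < P, W x.1 i = u) → ∀ u, x.2 u = 2 ↔ ∃ j < P,
        (∃ i < P, i / b = j / b ∧ x.2 (W x.1 i) = 2) ∧ W (CNT_mod x.1 x.2) j = u := by
    intro x hx hS u
    constructor
    · intro hu
      obtain ⟨i, hi, hiu⟩ := hS u hu
      refine ⟨i, hi, ⟨i, hi, rfl, by rw [hiu]; exact hu⟩, ?_⟩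
      rw [CNT_K1 hW (hA _ hx) hS hi (by rw [hiu]; exact hu), hiu]
    · rintro ⟨j, hj, ⟨i, hi, hij, hti⟩, rfl⟩
      exact CNT_K2 hb hg hW (hA _ hx) hi hj hij hti
  let F : (Σ _ : Out V (2 * b) m, V → Fin 3) → Out V (2 * b) m × Finset (Fin B) × (V → Bool) :=
    fun x => (CNT_mod x.1 x.2,
      univ.filter (fun q : Fin B => ∃ i < P, i / b = (q : ℕ) ∧ x.2 (W x.1 i) = 2),
      fun u => if x.2 u = 2 then decide (((x.1 u).2 : ℕ) % 2 = 1) else decide (x.2 u = 1))
  refine Finset.card_le_card_of_injOn F (fun _ _ => Finset.mem_coe.2 (Finset.mem_univ _)) ?_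
  intro x hx y hy hxy
  obtain ⟨hxA, hxS⟩ := hmem x hx
  obtain ⟨hyA, hyS⟩ := hmem y hy
  have e1 : CNT_mod x.1 x.2 = CNT_mod y.1 y.2 := congrArg Prod.fst hxy
  have e2 := congrArg (fun z => z.2.1) hxy
  have e3 := congrArg (fun z => z.2.2) hxy
  simp only [F] at e2 e3
  have hlt : ∀ j, j < P → j / b < B := by
    intro j hj
    rw [Nat.div_lt_iff_lt_mul hb]
    omega
  have hJ : ∀ j, j < P → ((∃ i < P, i / b = j / b ∧ x.2 (W x.1 i) = 2) ↔
      (∃ i < P, i / b = j / b ∧ y.2 (W y.1 i) = 2)) := by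
    intro j hj
    have h1 := Finset.ext_iff.1 e2 ⟨j / b, hlt j hj⟩
    simpa using h1
  have hSS : ∀ u, x.2 u = 2 ↔ y.2 u = 2 := by
    intro u
    rw [key x hxA hxS u, key y hyA hyS u]
    constructor
    · rintro ⟨j, hj, h1, h2⟩
      exact ⟨j, hj, (hJ j hj).1 h1, by rw [← e1]; exact h2⟩
    · rintro ⟨j, hj, h1, h2⟩
      exact ⟨j, hj, (hJ j hj).2 h1, by rw [e1]; exact h2⟩
  have ht : x.2 = y.2 := by
    funext u
    by_cases hu : x.2 u = 2
    · rw [hu, (hSS u).1 hu]
    · have hu' : y.2 u ≠ 2 := fun h => hu ((hSS u).2 h)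
      have h1 := congrFun e3 u
      rw [if_neg hu, if_neg hu'] at h1
      have h2 : x.2 u = 1 ↔ y.2 u = 1 := by simpa using h1
      generalize x.2 u = a at *
      generalize y.2 u = c at *
      revert a c
      decide
  have hω : x.1 = y.1 := by
    funext u
    by_cases hu : x.2 u = 2
    · have hu' := (hSS u).1 hu
      obtain ⟨h1, h2⟩ := CNT_mod_eq (ω := x.1) hu
      obtain ⟨h3, h4⟩ := CNT_mod_eq (ω := y.1) hu'
      have h5 := congrFun e3 u
      rw [if_pos hu, if_pos hu'] at h5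
      have h6 : ((x.1 u).2 : ℕ) % 2 = 1 ↔ ((y.1 u).2 : ℕ) % 2 = 1 := by simpa using h5
      rw [e1] at h1 h2
      have h7 : ((x.1 u).2 : ℕ) / 2 = ((y.1 u).2 : ℕ) / 2 := h2.symm.trans h4
      refine Prod.ext (h1.symm.trans h3) (Fin.ext ?_)
      omega
    · have hu' : y.2 u ≠ 2 := fun h => hu ((hSS u).2 h)
      rw [← CNT_mod_ne (ω := x.1) hu, ← CNT_mod_ne (ω := y.1) hu', e1]
  obtain ⟨x1, x2⟩ := x
  obtain ⟨y1, y2⟩ := y
  simp only at hω ht
  subst hω
  subst ht
  rfl

theorem p_CNT : Stmt_CNT := by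
  intro V _ b m P B n g ord W hb hP _ hg hW k
  set A : Finset (Out V (2 * b) m) := univ.filter (fun ω : Out V (2 * b) m =>
    (∀ i < P, ((ω (W ω i)).2 : ℕ) ≠ 0) ∧ k ≤ ((range P).image (W ω)).card) with hAdef
  have hAm : ∀ ω ∈ A, (∀ i < P, ((ω (W ω i)).2 : ℕ) ≠ 0) ∧ k ≤ ((range P).image (W ω)).card := by
    intro ω hω
    rw [hAdef, Finset.mem_filter] at hω
    exact hω.2
  rcases A.eq_empty_or_nonempty with hAe | ⟨ω₀, hω₀⟩
  · rw [hAe]
    simp
  have hkV : k ≤ Fintype.card V := (hAm ω₀ hω₀).2.trans (Finset.card_le_univ _)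
  have h1 := CNT_inj b m P B n g ord W hb hP hg hW A (fun ω hω => (hAm ω hω).1)
  rw [Finset.card_sigma] at h1
  have h2 : A.card * (3 ^ k * 2 ^ (Fintype.card V - k)) ≤ ∑ ω ∈ A, (Fintype.piFinset
      (fun u => if u ∈ (range P).image (W ω) then (univ : Finset (Fin 3)) else {0, 1})).card := by
    rw [← smul_eq_mul, ← Finset.sum_const]
    refine Finset.sum_le_sum fun ω hω => ?_
    rw [Fintype.card_piFinset]
    have h3 : ∀ u, (if u ∈ (range P).image (W ω) then (univ : Finset (Fin 3)) else {0, 1}).card =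
        if u ∈ (range P).image (W ω) then 3 else 2 := by
      intro u
      split_ifs
      · rfl
      · rfl
    rw [Finset.prod_congr rfl (fun u _ => h3 u), Finset.prod_ite, Finset.prod_const,
      Finset.prod_const]
    have h4 : (univ.filter (fun u => u ∈ (range P).image (W ω))).card =
        ((range P).image (W ω)).card := by
      congr 1
      ext u
      simp
    have h5 : (univ.filter (fun u => u ∉ (range P).image (W ω))).card =
        Fintype.card V - ((range P).image (W ω)).card := by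
      have h6 := Finset.card_filter_add_card_filter_not (s := (univ : Finset V))
        (fun u => u ∈ (range P).image (W ω))
      rw [h4, Finset.card_univ] at h6
      omega
    rw [h4, h5]
    set N := ((range P).image (W ω)).card with hN
    have hkN : k ≤ N := (hAm ω hω).2
    have hNV : N ≤ Fintype.card V := Finset.card_le_univ _
    have e1 : 3 ^ N = 3 ^ k * 3 ^ (N - k) := by
      rw [← pow_add]; congr 1; omega
    have e2 : 2 ^ (Fintype.card V - k) = 2 ^ (N - k) * 2 ^ (Fintype.card V - N) := by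
      rw [← pow_add]; congr 1; omega
    rw [e1, e2, mul_assoc]
    refine Nat.mul_le_mul_left _ (Nat.mul_le_mul_right _ ?_)
    exact Nat.pow_le_pow_left (by norm_num) _
  have h3 := h2.trans h1
  have e3 : 2 ^ (Fintype.card V) = 2 ^ k * 2 ^ (Fintype.card V - k) := by
    rw [← pow_add]; congr 1; omega
  have h4 : A.card * 3 ^ k * 2 ^ (Fintype.card V - k) ≤
      2 ^ (B + k) * Fintype.card (Out V (2 * b) m) * 2 ^ (Fintype.card V - k) := by
    calc A.card * 3 ^ k * 2 ^ (Fintype.card V - k)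
        = A.card * (3 ^ k * 2 ^ (Fintype.card V - k)) := by ring
      _ ≤ Fintype.card (Out V (2 * b) m) * 2 ^ B * 2 ^ (Fintype.card V) := h3
      _ = _ := by rw [e3, pow_add]; ring
  exact Nat.le_of_mul_le_mul_right h4 (by positivity)

end ESub
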