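import Pool.Agent.Work.MP_a2fb93_ev.Interface
set_option autoImplicit false

/-!
FL: the double cover trick.
-/

namespace ESub

open Finset Classical

theorem p_FL (hT : Stmt_TUT) : Stmt_FL := by
  intro H _ inv next μ c hi hi1 hn3 hn hμ hci hc
  obtain ⟨u, u1, u2, u3, u4, u5⟩ := hT (H × ℤˣ) (fun p => (inv p.1, μ p.1 * p.2))
    (fun p => (next p.1, p.2)) (fun p => ((p.2 : ℤ) : ZMod 3) * (2 * c p.1))
    (by
      rintro ⟨h, e⟩
      simp only [hi, hμ]
      rw [← mul_assoc, Int.units_mul_self, one_mul])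
    (by
      rintro ⟨h, e⟩ he
      exact hi1 h (Prod.mk.inj he).1)
    (by
      rintro ⟨h, e⟩
      simp only [hn3])
    (by
      rintro ⟨h, e⟩ he
      exact hn h (Prod.mk.inj he).1)
    (by
      rintro ⟨h, e⟩
      simp only [hci, Units.val_mul, Int.cast_mul]
      have := Aff.sq (R := ZMod 3) (μ h)
      linear_combination (-(2 * ((e : ℤ) : ZMod 3) * c h)) * this)
    (by
      rintro ⟨h, e⟩
      simp only
      have := hc h
      linear_combination (2 * ((e : ℤ) : ZMod 3)) * this)
  refine ⟨fun h => u (h, 1) - u (h, -1), fun h => ?_, fun h => ?_, fun h => ?_, fun h => ?_,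
    fun h hh => ?_⟩
  · have a1 := u1 (h, 1)
    have a2 := u1 (h, -1)
    simp only [Units.val_one, Units.val_neg, Int.cast_one, Int.cast_neg] at a1 a2
    push_cast
    rw [a1, a2]
    have h30 : (3 : ZMod 3) = 0 := rfl
    linear_combination (c h) * h30
  · have a1 := u2 (h, 1)
    have a2 := u2 (h, -1)
    simp only at a1 a2 ⊢
    rcases Int.units_eq_one_or (μ h) with e | e
    · rw [e] at a1 a2 ⊢
      rw [one_mul] at a1 a2
      rw [a1, a2]
      simp only [Units.val_one]
      ring
    · rw [e] at a1 a2 ⊢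
      rw [mul_one] at a1
      rw [neg_mul_neg, one_mul] at a2
      rw [a1, a2]
      simp only [Units.val_neg, Units.val_one]
      ring
  · have a1 := u3 (h, 1)
    have a2 := u3 (h, -1)
    simp only at a1 a2 ⊢
    linear_combination a1 - a2
  · have a1 := abs_le.1 (u4 (h, 1))
    have a2 := abs_le.1 (u4 (h, -1))
    simp only
    rw [abs_le]
    omega
  · simp only
    rw [u5 (h, 1) (by simp [hh]), u5 (h, -1) (by simp [hh])]
    ring

end ESub
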