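import Pool.Agent.Work.MP_a2fb93_ev.Interface
set_option autoImplicit false

/-! Block GAUGE: gauge transformation (helper63). -/

namespace ESub

open Finset Classical

theorem GAUGE_inj {R : Type} [CommRing R] (a : Aff R) {x y : R} (h : a.act x = a.act y) :
    x = y := by
  have h1 := congrArg (a⁻¹).act h
  rw [← Aff.act_mul, ← Aff.act_mul, inv_mul_cancel, Aff.act_one, Aff.act_one] at h1
  exact h1

theorem p_GAUGE (hVTX : Stmt_VTX) (hHOL : Stmt_HOL) : Stmt_GAUGE := by
  intro D _ T n L hF hL c γ hγ hlen g hg h2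
  obtain ⟨-, -, -, -, v1, v2, v3, v4, v5, -, -, v6⟩ := hVTX D T
  set A : T.Vertex → Aff (ZMod 3) := fun v => ((γ v).map g).prod with hA
  set g' : D → Aff (ZMod 3) := fun d => (A (T.org d))⁻¹ * g d * A (T.tgt d) with hg'
  refine ⟨g', fun v => ((A v)⁻¹).act 2, ⟨?_, ?_⟩, ?_, ?_⟩
  · intro d
    have h3 : T.org (T.inv d) = T.tgt d := rfl
    show (A (T.org (T.inv d)))⁻¹ * g (T.inv d) * A (T.tgt (T.inv d)) =
      ((A (T.org d))⁻¹ * g d * A (T.tgt d))⁻¹
    rw [h3, v3, hg.inv, mul_inv_rev, mul_inv_rev, inv_inv, mul_assoc]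
  · intro d
    show (A (T.org d))⁻¹ * g d * A (T.tgt d) *
      ((A (T.org (T.next d)))⁻¹ * g (T.next d) * A (T.tgt (T.next d))) *
      ((A (T.org (T.next (T.next d))))⁻¹ * g (T.next (T.next d)) *
        A (T.tgt (T.next (T.next d)))) = 1
    rw [v1 d, v1 (T.next d), v2 d]
    have h3 := hg.face d
    have h4 : (A (T.org d))⁻¹ * g d * A (T.tgt d) *
      ((A (T.tgt d))⁻¹ * g (T.next d) * A (T.tgt (T.next d))) *
      ((A (T.tgt (T.next d)))⁻¹ * g (T.next (T.next d)) * A (T.org d)) =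
      (A (T.org d))⁻¹ * (g d * g (T.next d) * g (T.next (T.next d))) * A (T.org d) := by group
    rw [h4, h3]
    group
  · intro d
    show ((A (T.org d))⁻¹ * g d * A (T.tgt d)).act (((A (T.tgt d))⁻¹).act 2) ≠
      ((A (T.org d))⁻¹).act 2
    rw [← Aff.act_mul, mul_inv_cancel_right, Aff.act_mul]
    intro h3
    exact h2 d (GAUGE_inj _ h3)
  · intro d hd
    have h3 : T.IsWalk (T.rev (γ (T.org d)) ++ ([d] ++ γ (T.tgt d))) (c (T.org d)) (c (T.org d)) := by
      refine v4 _ _ _ (T.org d) _ (v5 _ _ _ (hγ _)) (v4 _ _ _ (T.tgt d) _ ⟨rfl, rfl⟩ ?_)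
      rw [hd]
      exact hγ _
    have h4 : (T.rev (γ (T.org d)) ++ ([d] ++ γ (T.tgt d))).length < n := by
      have h5 := hlen (T.org d)
      have h6 := hlen (T.tgt d)
      simp only [Triangulation.rev, List.length_append, List.length_reverse, List.length_map,
        List.length_singleton]
      omega
    have h5 := hHOL D T n hF _ _ h3 h4 _ g hg
    rw [List.map_append, List.map_append, List.prod_append, List.prod_append, v6 _ g hg,
      List.map_singleton, List.prod_singleton, ← mul_assoc] at h5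
    exact h5

end ESub
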