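import Pool.Agent.Work.MP_a2fb93_ev.Interface
set_option autoImplicit false

/-!
Block HIGH.
-/

namespace ESub

open Finset Classical

theorem p_HIGH : Stmt_HIGH := by
  intro V _ h m u
  have h1 : (univ.filter (fun ω : Out V h m => ((ω u).2 : ℕ) = 0)).card * 2 ^ m =
      ((univ.filter (fun ω : Out V h m => ((ω u).2 : ℕ) = 0)) ×ˢ
        (univ : Finset (Fin (2 ^ m)))).card := by
    rw [Finset.card_product, Finset.card_univ, Fintype.card_fin]
  rw [h1, ← Finset.card_univ (α := Out V h m)]
  refine Finset.card_le_card_of_injOn (fun p => Function.update p.1 u ((p.1 u).1, p.2))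
    (fun p _ => Finset.mem_univ _) ?_
  rintro ⟨ω, y⟩ hω ⟨ω', y'⟩ hω' he
  simp only [Finset.coe_product, Set.mem_prod, Finset.mem_coe, Finset.mem_filter,
    Finset.mem_univ, true_and, and_true, Finset.coe_univ, Set.mem_univ] at hω hω'
  simp only at he
  have h2 := congrFun he u
  rw [Function.update_self, Function.update_self] at h2
  have h3 : y = y' := (Prod.ext_iff.1 h2).2
  have h4 : (ω u).1 = (ω' u).1 := (Prod.ext_iff.1 h2).1
  refine Prod.ext ?_ h3
  funext v
  by_cases hv : v = u
  · subst hv
    refine Prod.ext h4 (Fin.ext ?_)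
    rw [hω, hω']
  · have h5 := congrFun he v
    rwa [Function.update_of_ne hv, Function.update_of_ne hv] at h5

end ESub
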