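import Pool.Agent.Work.MP_a2fb93_ev.Interface
set_option autoImplicit false

/-! # MP_a2fb93_co, block LIFT: from FL to affine maps (helper29) -/

namespace ESub

open Finset Classical

/-- a sign for each dart such that the signs of the darts of a face differ by the linear parts -/
theorem LIFT_sigma {D : Type} (next : D → D) (s : D → ℤˣ) (h3 : ∀ d, next (next (next d)) = d)
    (hne : ∀ d, next d ≠ d) (hs : ∀ d, s d * s (next d) * s (next (next d)) = 1) :
    ∃ σ : D → ℤˣ, ∀ d, σ (next d) = σ d * s d := by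
  have hne2 : ∀ d, next (next d) ≠ d := by
    intro d h
    have := h3 d
    rw [h] at this
    exact hne d this
  let st : Setoid D :=
    { r := fun a b => b = a ∨ b = next a ∨ b = next (next a)
      iseqv :=
        { refl := fun a => Or.inl rfl
          symm := by
            rintro a b (h | h | h)
            · exact Or.inl h.symm
            · right; right; rw [h, h3]
            · right; left; rw [h, h3]
          trans := by
            rintro a b c (h | h | h) (h' | h' | h')
            · left; rw [h', h]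
            · right; left; rw [h', h]
            · right; right; rw [h', h]
            · right; left; rw [h', h]
            · right; right; rw [h', h]
            · left; rw [h', h, h3]
            · right; right; rw [h', h]
            · left; rw [h', h, h3]
            · right; left; rw [h', h, h3] } }
  let r : D → D := fun d => (Quotient.mk st d).out
  have hr1 : ∀ d, r (next d) = r d := by
    intro d
    show (Quotient.mk st (next d)).out = (Quotient.mk st d).out
    have : Quotient.mk st (next d) = Quotient.mk st d :=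
      Quotient.sound (show st.r (next d) d from Or.inr (Or.inr (h3 d).symm))
    rw [this]
  have hr2 : ∀ d, d = r d ∨ d = next (r d) ∨ d = next (next (r d)) := by
    intro d
    exact Quotient.exact (Quotient.out_eq (Quotient.mk st d))
  refine ⟨fun d => if d = r d then 1 else if d = next (r d) then s (r d) else
    s (r d) * s (next (r d)), ?_⟩
  intro d
  show (if next d = r (next d) then (1 : ℤˣ) else if next d = next (r (next d)) then s (r (next d))
    else s (r (next d)) * s (next (r (next d)))) =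
    (if d = r d then (1 : ℤˣ) else if d = next (r d) then s (r d) else
    s (r d) * s (next (r d))) * s d
  rw [hr1]
  have hd := hr2 d
  generalize r d = e at hd ⊢
  rcases hd with h | h | h
  · subst h
    rw [if_neg (hne d), if_pos rfl, if_pos rfl, one_mul]
  · subst h
    rw [if_neg (hne2 e), if_neg (hne _), if_neg (hne e), if_pos rfl]
  · subst h
    rw [if_pos (h3 e), if_neg (hne2 e), if_neg (hne _), hs]

theorem p_LIFT (hFL : Stmt_FL) : Stmt_LIFT := by
  intro D _ T g hg
  have e1 : ∀ d, (g (T.inv d)).s = (g d).s := by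
    intro d; rw [hg.inv]; rfl
  have e2 : ∀ d, (g (T.inv d)).t = -((((g d).s : ℤ) : ZMod 3) * (g d).t) := by
    intro d; rw [hg.inv]; rfl
  have e3 : ∀ d, (g d).s * (g (T.next d)).s * (g (T.next (T.next d))).s = 1 := by
    intro d
    have := congrArg Aff.s (hg.face d)
    simpa using this
  have e4 : ∀ d, (g d).t + (((g d).s : ℤ) : ZMod 3) * (g (T.next d)).t +
      (((g d).s : ℤ) : ZMod 3) * (((g (T.next d)).s : ℤ) : ZMod 3) *
        (g (T.next (T.next d))).t = 0 := by
    intro d
    have := congrArg Aff.t (hg.face d)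
    simpa using this
  obtain ⟨σ, hσ⟩ := LIFT_sigma T.next (fun d => (g d).s) T.next_next_next T.next_ne e3
  have hσ' : ∀ d, σ (T.next d) = σ d * (g d).s := hσ
  have sq1 : ∀ (u : ℤˣ), (((u : ℤ) : ZMod 3)) * (((u : ℤ) : ZMod 3)) = 1 := fun u => Aff.sq u
  obtain ⟨x, x1, x2, x3, x4, x5⟩ := hFL D T.inv T.next (fun d => σ d * σ (T.inv d) * (g d).s)
    (fun d => (((σ d : ℤˣ) : ℤ) : ZMod 3) * (g d).t) T.inv_inv T.inv_ne T.next_next_next T.next_ne
    (by
      intro d
      show σ (T.inv d) * σ (T.inv (T.inv d)) * (g (T.inv d)).s = σ d * σ (T.inv d) * (g d).s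
      rw [T.inv_inv, e1, mul_comm (σ (T.inv d))])
    (by
      intro d
      show (((σ (T.inv d) : ℤˣ) : ℤ) : ZMod 3) * (g (T.inv d)).t =
        -((((σ d * σ (T.inv d) * (g d).s : ℤˣ) : ℤ) : ZMod 3) * ((((σ d : ℤˣ) : ℤ) : ZMod 3) * (g d).t))
      rw [e2]
      push_cast
      linear_combination (((σ (T.inv d) : ℤˣ) : ℤ) : ZMod 3) * (((g d).s : ℤ) : ZMod 3) * (g d).t *
        (sq1 (σ d)))
    (by
      intro d
      show (((σ d : ℤˣ) : ℤ) : ZMod 3) * (g d).t +
        (((σ (T.next d) : ℤˣ) : ℤ) : ZMod 3) * (g (T.next d)).t +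
        (((σ (T.next (T.next d)) : ℤˣ) : ℤ) : ZMod 3) * (g (T.next (T.next d))).t = 0
      rw [hσ' (T.next d), hσ' d]
      push_cast
      linear_combination (((σ d : ℤˣ) : ℤ) : ZMod 3) * e4 d)
  refine ⟨fun d => ⟨(g d).s, ((σ d : ℤˣ) : ℤ) * x d⟩, ⟨?_, ?_⟩, ?_, ?_, ?_⟩
  · intro d
    have h1 := x2 d
    have h2 : (((σ (T.inv d) : ℤˣ) : ℤ)) * (((σ (T.inv d) : ℤˣ) : ℤ)) = 1 := by
      rcases Int.units_eq_one_or (σ (T.inv d)) with h | h <;> rw [h] <;> simp
    ext
    · exact congrArg (fun u : ℤˣ => (u : ℤ)) (e1 d)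
    · show ((σ (T.inv d) : ℤˣ) : ℤ) * x (T.inv d) = -((((g d).s : ℤˣ) : ℤ) * (((σ d : ℤˣ) : ℤ) * x d))
      rw [h1]
      push_cast
      linear_combination (-(((σ d : ℤˣ) : ℤ) * (((g d).s : ℤˣ) : ℤ) * x d)) * h2
  · intro d
    have h1 := x3 d
    have h2 : (((g d).s : ℤˣ) : ℤ) * (((g d).s : ℤˣ) : ℤ) = 1 := by
      rcases Int.units_eq_one_or (g d).s with h | h <;> rw [h] <;> simp
    have h3 : (((g (T.next d)).s : ℤˣ) : ℤ) * (((g (T.next d)).s : ℤˣ) : ℤ) = 1 := by
      rcases Int.units_eq_one_or (g (T.next d)).s with h | h <;> rw [h] <;> simp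
    ext
    · exact congrArg (fun u : ℤˣ => (u : ℤ)) (e3 d)
    · show (((σ d : ℤˣ) : ℤ) * x d + (((g d).s : ℤˣ) : ℤ) * (((σ (T.next d) : ℤˣ) : ℤ) * x (T.next d))) +
        ((((g d).s * (g (T.next d)).s : ℤˣ) : ℤ)) *
          (((σ (T.next (T.next d)) : ℤˣ) : ℤ) * x (T.next (T.next d))) = 0
      rw [hσ' (T.next d), hσ' d]
      push_cast
      linear_combination (((σ d : ℤˣ) : ℤ)) * h1 + (((σ d : ℤˣ) : ℤ)) * x (T.next d) * h2 +
        (((σ d : ℤˣ) : ℤ)) * x (T.next (T.next d)) *
          ((((g (T.next d)).s : ℤˣ) : ℤ) * (((g (T.next d)).s : ℤˣ) : ℤ) * h2 + h3)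
  · intro d
    ext
    · rfl
    · show (((((σ d : ℤˣ) : ℤ) * x d : ℤ)) : ZMod 3) = (g d).t
      push_cast
      rw [x1 d]
      linear_combination (g d).t * sq1 (σ d)
  · intro d
    show |((σ d : ℤˣ) : ℤ) * x d| ≤ 4
    rw [abs_mul]
    have : |((σ d : ℤˣ) : ℤ)| = 1 := by
      rcases Int.units_eq_one_or (σ d) with h | h <;> rw [h] <;> simp
    rw [this, one_mul]
    exact x4 d
  · intro d hd
    have h1 : x d = 0 := by
      apply x5
      show (((σ d : ℤˣ) : ℤ) : ZMod 3) * (g d).t = 0
      rw [hd]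
      simp
    ext
    · show (((g d).s : ℤˣ) : ℤ) = ((1 : ℤˣ) : ℤ)
      rw [hd]
      rfl
    · show ((σ d : ℤˣ) : ℤ) * x d = 0
      rw [h1, mul_zero]

end ESub
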