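import Pool.Agent.Work.MP_a2fb93_ev.Interface
import Pool.Agent.Work.MP_db9399_all_helper6.AL

/-! # LLS: symmetric local lemma in a product space -/

set_option autoImplicit false

namespace ESub

open Finset Classical

section

variable {V X : Type}

/-- exchange of the coordinates outside `Q` -/
noncomputable def LLS_mix (Q : Finset V) (f g : V → X) : V → X := fun y =>
  if y ∈ Q then f y else g y

theorem LLS_indep [Fintype V] [Fintype X] (Q : Finset V) (A B : (V → X) → Prop)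
    [DecidablePred fun f : V → X => A f ∧ B f] [DecidablePred A] [DecidablePred B]
    (hA : ∀ ω ω' : V → X, (∀ u ∈ Q, ω u = ω' u) → (A ω ↔ A ω'))
    (hB : ∀ ω ω' : V → X, (∀ u, u ∉ Q → ω u = ω' u) → (B ω ↔ B ω')) :
    (univ.filter (fun f : V → X => A f ∧ B f)).card * Fintype.card (V → X) =
      (univ.filter A).card * (univ.filter B).card := by
  rw [← Finset.card_univ (α := V → X), ← Finset.card_product, ← Finset.card_product]
  refine Finset.card_bij' (fun p _ => (LLS_mix Q p.1 p.2, LLS_mix Q p.2 p.1))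
    (fun p _ => (LLS_mix Q p.1 p.2, LLS_mix Q p.2 p.1)) ?_ ?_ ?_ ?_
  · rintro ⟨f, g⟩ h
    simp only [Finset.mem_product, Finset.mem_filter, Finset.mem_univ, true_and, and_true] at h ⊢
    constructor
    · rw [hA (LLS_mix Q f g) f fun y hy => if_pos hy]
      exact h.1
    · rw [hB (LLS_mix Q g f) f fun y hy => if_neg hy]
      exact h.2
  · rintro ⟨f, g⟩ h
    simp only [Finset.mem_product, Finset.mem_filter, Finset.mem_univ, true_and, and_true] at h ⊢
    constructor
    · rw [hA (LLS_mix Q f g) f fun y hy => if_pos hy]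
      exact h.1
    · rw [hB (LLS_mix Q f g) g fun y hy => if_neg hy]
      exact h.2
  · rintro ⟨f, g⟩ _
    refine Prod.ext ?_ ?_ <;> funext y <;> by_cases hy : y ∈ Q <;> simp [LLS_mix, hy]
  · rintro ⟨f, g⟩ _
    refine Prod.ext ?_ ?_ <;> funext y <;> by_cases hy : y ∈ Q <;> simp [LLS_mix, hy]

theorem LLS_bound [Fintype V] [Fintype X] [Nonempty X] (Q : Finset V) (A B : (V → X) → Prop)
    [DecidablePred fun f : V → X => A f ∧ B f] [DecidablePred A] [DecidablePred B] (M : ℕ)
    (hM0 : (0 : ℝ) < M)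
    (hA : ∀ ω ω' : V → X, (∀ u ∈ Q, ω u = ω' u) → (A ω ↔ A ω'))
    (hB : ∀ ω ω' : V → X, (∀ u, u ∉ Q → ω u = ω' u) → (B ω ↔ B ω'))
    (hp : 6 * M * (univ.filter A).card ≤ Fintype.card (V → X)) :
    ((univ.filter (fun f : V → X => A f ∧ B f)).card : ℝ) ≤
      1 / (6 * (M : ℝ)) * ((univ.filter B).card : ℝ) := by
  have hΩ : (0 : ℝ) < Fintype.card (V → X) := by exact_mod_cast Fintype.card_pos
  have h1 := LLS_indep Q A B hA hB
  have h2 : ((univ.filter (fun f : V → X => A f ∧ B f)).card : ℝ) *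
      Fintype.card (V → X) = ((univ.filter A).card : ℝ) * ((univ.filter B).card : ℝ) := by
    exact_mod_cast h1
  have h3 : 6 * (M : ℝ) * ((univ.filter A).card : ℝ) ≤ Fintype.card (V → X) := by
    exact_mod_cast hp
  have hB0 : (0 : ℝ) ≤ ((univ.filter B).card : ℝ) := Nat.cast_nonneg _
  have h4 : ((univ.filter (fun f : V → X => A f ∧ B f)).card : ℝ) *
      Fintype.card (V → X) ≤ 1 / (6 * (M : ℝ)) *
        ((univ.filter B).card : ℝ) * Fintype.card (V → X) := by
    rw [h2]
    have h5 : ((univ.filter A).card : ℝ) ≤ 1 / (6 * (M : ℝ)) * Fintype.card (V → X) := by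
      rw [one_div_mul_eq_div, le_div_iff₀ (by positivity)]
      linarith
    calc ((univ.filter A).card : ℝ) * ((univ.filter B).card : ℝ)
        ≤ (1 / (6 * (M : ℝ)) * Fintype.card (V → X)) * ((univ.filter B).card : ℝ) :=
          mul_le_mul_of_nonneg_right h5 hB0
      _ = _ := by ring
  exact le_of_mul_le_mul_right h4 hΩ

theorem LLS_num (s : Finset V) (M : ℕ) (hM0 : (0 : ℝ) < M) (h : s.card ≤ M) :
    1 / (6 * (M : ℝ)) * Real.exp (2 * ∑ _k ∈ s, 1 / (2 * (M : ℝ))) ≤ 1 / (2 * (M : ℝ)) := by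
  have h1 : ∑ _k ∈ s, 1 / (2 * (M : ℝ)) ≤ 1 / 2 := by
    rw [Finset.sum_const, nsmul_eq_mul]
    have h2 : (s.card : ℝ) ≤ M := by exact_mod_cast h
    rw [mul_one_div, div_le_div_iff₀ (by positivity) (by norm_num)]
    linarith
  have h3 : Real.exp (2 * ∑ _k ∈ s, 1 / (2 * (M : ℝ))) ≤ 3 := by
    refine (Real.exp_le_exp.2 (show _ ≤ (1 : ℝ) by linarith)).trans ?_
    have := Real.exp_one_lt_d9
    linarith
  calc 1 / (6 * (M : ℝ)) * Real.exp (2 * ∑ _k ∈ s, 1 / (2 * (M : ℝ)))
      ≤ 1 / (6 * (M : ℝ)) * 3 := mul_le_mul_of_nonneg_left h3 (by positivity)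
    _ = 1 / (2 * (M : ℝ)) := by field_simp; norm_num

end

theorem p_LLS : Stmt_LLS := by
  intro V X _ _ _ E Q M hM hdep hdeg hprob
  have hM0 : (0 : ℝ) < M := by
    have : 0 < M := hM
    exact_mod_cast this
  have hM1 : (1 : ℝ) ≤ M := by exact_mod_cast hM
  refine Pool.Agent.Work.MP_db9399_all.stmt_AL.{0, 0} (V → X) V E
    (fun v w => ¬ Disjoint (Q v) (Q w)) (fun _ => 1 / (6 * (M : ℝ))) (fun _ => 1 / (2 * (M : ℝ)))
    (fun _ => by positivity) (fun _ => ?_) ?_ ?_
  · rw [div_le_div_iff₀ (by positivity) (by norm_num)]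
    linarith
  · intro i S hS
    exact LLS_bound (Q i) (E i) (fun ω => ∀ k ∈ S, ¬ E k ω) M hM0 (hdep i) (by
      intro ω ω' h
      refine forall₂_congr fun k hk => ?_
      rw [hdep k ω ω' fun u hu => h u ?_]
      exact fun hui => (Finset.disjoint_left.1 (not_not.1 (hS k hk))) hui hu) (hprob i)
  · intro i
    refine LLS_num _ M hM0 (le_trans (le_of_eq (congrArg Finset.card ?_)) (hdeg i))
    ext k
    simp only [Finset.mem_filter]

end ESub
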