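import Pool.Agent.Work.MP_a2fb93_ev.Interface
set_option autoImplicit false

/-!
Block NUM.
-/

namespace ESub

theorem p_NUM : Stmt_NUM := by
  intro r A N1 N2 hr h1 h2
  obtain ⟨M, hM⟩ : ∃ M, M = r / 2 ^ 14 := ⟨_, rfl⟩
  rw [← hM]
  have hr' : 16384 ≤ r := by simpa using hr
  have hM1 : M * 16384 ≤ r := by rw [hM]; exact Nat.div_mul_le_self r 16384
  /- part one -/
  have ha : 2 * M + 5 ≤ r / 512 - 1 := by omega
  have h3 : N1 * 2 ^ (2 * M + 5) ≤ A :=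
    (Nat.mul_le_mul_left _ (Nat.pow_le_pow_right (by norm_num) ha)).trans h1
  /- part two -/
  obtain ⟨j, hj⟩ : ∃ j, j = (r / 64 + 1) / 2 := ⟨_, rfl⟩
  have h4 : 2 ^ (r / 64 + 1 + j) ≤ 3 ^ (r / 64 + 1) := by
    have h5 : 2 ^ (2 * j + j) ≤ 3 ^ (2 * j) := by
      rw [show 2 * j + j = 3 * j by ring, pow_mul, pow_mul]
      exact Nat.pow_le_pow_left (by norm_num) j
    obtain ⟨e, he, he1⟩ : ∃ e, r / 64 + 1 = 2 * j + e ∧ e ≤ 1 := ⟨r / 64 + 1 - 2 * j, by omega, by omega⟩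
    rw [he]
    have h6 : 2 ^ e ≤ 3 ^ e := Nat.pow_le_pow_left (by norm_num) e
    calc 2 ^ (2 * j + e + j) = 2 ^ (2 * j + j) * 2 ^ e := by rw [← pow_add]; congr 1; ring
      _ ≤ 3 ^ (2 * j) * 3 ^ e := Nat.mul_le_mul h5 h6
      _ = 3 ^ (2 * j + e) := by rw [pow_add]
  have h7 : N2 * 2 ^ (r / 64 + 1 + j) ≤ 2 ^ (r / 256 + 1 + (r / 64 + 1)) * A :=
    (Nat.mul_le_mul_left _ h4).trans h2
  have hb : 2 * M + 5 + (r / 256 + 1) ≤ j := by omega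
  have h8 : N2 * 2 ^ (2 * M + 5) ≤ A := by
    have h9 : 2 ^ (r / 256 + 1 + (r / 64 + 1)) * (N2 * 2 ^ (2 * M + 5)) ≤
        2 ^ (r / 256 + 1 + (r / 64 + 1)) * A := by
      refine le_trans ?_ h7
      rw [show 2 ^ (r / 256 + 1 + (r / 64 + 1)) * (N2 * 2 ^ (2 * M + 5)) =
        N2 * 2 ^ (r / 256 + 1 + (r / 64 + 1) + (2 * M + 5)) by rw [pow_add _ _ (2 * M + 5)]; ring]
      exact Nat.mul_le_mul_left _ (Nat.pow_le_pow_right (by norm_num) (by omega))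
    exact Nat.le_of_mul_le_mul_left h9 (by positivity)
  have h10 : 2 ^ (2 * M + 5) = 2 ^ M * 2 ^ M * 32 := by
    rw [pow_add, show 2 * M = M + M by ring, pow_add]; norm_num
  rw [h10] at h3 h8
  nlinarith [h3, h8]

end ESub
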