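import Mathlib
import Pool.Agent.Work.MP_a2fb93_ev.Interface
set_option autoImplicit false

/-!
Block PICK: choice of the clusters by the local lemma.
-/

namespace ESub

open Finset Classical

namespace PickAux

variable {D : Type}

/-- the vertex of the walk l from v at position i (the last vertex for i > length) -/
def pos (T : Triangulation D) : List D → T.Vertex → ℕ → T.Vertex
  | [], v, _ => v
  | _ :: _, v, 0 => v
  | d :: l, _, i + 1 => pos T l (T.tgt d) i

theorem pos_zero (T : Triangulation D) (l : List D) (v : T.Vertex) : pos T l v 0 = v := by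
  cases l <;> rfl

theorem pos_step (T : Triangulation D) : ∀ (l : List D) (v w : T.Vertex), T.IsWalk l v w →
    ∀ i : ℕ, pos T l v (i + 1) = pos T l v i ∨
      ∃ d, T.org d = pos T l v i ∧ T.tgt d = pos T l v (i + 1)
  | [], v, w, _, i => Or.inl rfl
  | d :: l, v, w, h, 0 => by
      right
      refine ⟨d, ?_, ?_⟩
      · exact h.1
      · show T.tgt d = pos T l (T.tgt d) 0
        rw [pos_zero]
  | d :: l, v, w, h, i + 1 => pos_step T l (T.tgt d) w h.2 i

theorem near_mono (T : Triangulation D) {n m : ℕ} (h : n ≤ m) {v w : T.Vertex}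
    (hn : T.Near n v w) : T.Near m v w := by
  induction h with
  | refl => exact hn
  | step _ ih => exact Or.inl ih

theorem near_refl (T : Triangulation D) (n : ℕ) (v : T.Vertex) : T.Near n v v :=
  near_mono T (Nat.zero_le n) (show T.Near 0 v v from rfl)

theorem near_trans (T : Triangulation D) : ∀ (n m : ℕ) (v w u : T.Vertex), T.Near n v w →
    T.Near m w u → T.Near (n + m) v u
  | 0, m, v, w, u, h, h' => by
      have : v = w := h
      subst this
      simpa using h'
  | n + 1, m, v, w, u, h, h' => by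
      have e : n + 1 + m = (n + m) + 1 := by omega
      rw [e]
      rcases h with h | ⟨d, hd, h⟩
      · exact Or.inl (near_trans T n m v w u h h')
      · exact Or.inr ⟨d, hd, near_trans T n m _ w u h h'⟩

theorem pos_near (T : Triangulation D) : ∀ (l : List D) (v w : T.Vertex), T.IsWalk l v w →
    ∀ i : ℕ, T.Near l.length v (pos T l v i)
  | [], _, _, _, _ => rfl
  | _ :: _, v, _, _, 0 => near_refl T _ v
  | d :: l, _, w, h, i + 1 => Or.inr ⟨d, h.1, pos_near T l (T.tgt d) w h.2 i⟩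

theorem pos_mem (T : Triangulation D) : ∀ (l : List D) (v : T.Vertex) (d : D), d ∈ l →
    ∃ i, i < l.length + 1 ∧ pos T l v i = T.tgt d
  | [], v, d, hd => by simp at hd
  | e :: l, v, d, hd => by
      rcases List.mem_cons.1 hd with rfl | hd
      · exact ⟨1, by simp, by show pos T l (T.tgt d) 0 = T.tgt d; rw [pos_zero]⟩
      · obtain ⟨i, hi, h⟩ := pos_mem T l (T.tgt e) d hd
        exact ⟨i + 1, by simpa using hi, h⟩

theorem shift_le {V : Type} {h m : ℕ} (ω : Out V h m) (u : V) :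
    shift ω u + 1 ≤ h * (m + 1) := by
  unfold shift
  have h1 : h * (m - Nat.size ((ω u).2 : ℕ)) ≤ h * m := Nat.mul_le_mul_left _ (Nat.sub_le _ _)
  have h2 := (ω u).1.2
  have : h * (m + 1) = h * m + h := by ring
  omega

theorem card_filter_eq {V : Type} [Fintype V] (P : V → Prop) :
    (univ.filter P).card = Nat.card {w : V // P w} := by
  rw [Nat.card_eq_fintype_card, Fintype.card_subtype]

end PickAux

open PickAux

theorem p_PICK (hVTX : Stmt_VTX) (hTDF : Stmt_TDF) (hWIN : Stmt_WIN) (hCNT : Stmt_CNT)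
    (hLLS : Stmt_LLS) (hHIGH : Stmt_HIGH) (hNUM : Stmt_NUM) : Stmt_PICK := by
  refine ⟨2 ^ 14, by norm_num, ?_⟩
  intro D hD T r hr hball
  obtain ⟨hfin, -, -, -, -, -, -, -, hrev, -, hnear, -⟩ := hVTX D T
  have : Fintype T.Vertex := Fintype.ofFinite _
  -- parameters
  obtain ⟨m, hm⟩ : ∃ m, m = r / 512 - 1 := ⟨_, rfl⟩
  obtain ⟨L, hL⟩ : ∃ L, L = (2 * 64) * (m + 1) - 1 := ⟨_, rfl⟩
  obtain ⟨R, hR⟩ : ∃ R, R = r / 4 := ⟨_, rfl⟩
  obtain ⟨B, hB⟩ : ∃ B, B = r / 256 + 1 := ⟨_, rfl⟩
  obtain ⟨k, hk⟩ : ∃ k, k = r / 64 + 1 := ⟨_, rfl⟩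
  obtain ⟨n, hn⟩ : ∃ n, n = Nat.card T.Vertex := ⟨_, rfl⟩
  have hLr : 4 * L ≤ r := by omega
  have hRL : 2 * (R + L) ≤ r := by omega
  have hPB : R + 1 ≤ B * 64 := by omega
  have hsym : ∀ (j : ℕ) (v w : T.Vertex), T.Near j v w → T.Near j w v := by
    intro j v w h
    obtain ⟨l, hl, hw⟩ := (hnear j v w).1 h
    refine (hnear j w v).2 ⟨T.rev l, ?_, hrev l v w hw⟩
    simpa [Triangulation.rev] using hl
  -- the order
  obtain ⟨ord, hord⟩ : ∃ ord : T.Vertex → ℕ, (∀ u, ord u ≤ n) ∧ Function.Injective ord := by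
    refine ⟨fun u => ((Finite.equivFin T.Vertex u : Fin _) : ℕ), ?_, ?_⟩
    · intro u
      have := (Finite.equivFin T.Vertex u).2
      rw [hn]
      exact this.le
    · intro u v huv
      exact (Finite.equivFin T.Vertex).injective (Fin.ext huv)
  obtain ⟨c, hc1, hc2⟩ := hWIN D T L n ord hord.1 hord.2
  have hshift : ∀ (ω : Out T.Vertex (2 * 64) m) (u : T.Vertex), shift ω u ≤ L := by
    intro ω u
    have := shift_le ω u
    omega
  -- the walks
  have hwk : ∀ v w : T.Vertex, ∃ l : List D, T.Near R v w → l.length ≤ R ∧ T.IsWalk l v w := by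
    intro v w
    by_cases h : T.Near R v w
    · obtain ⟨l, hl⟩ := (hnear R v w).1 h
      exact ⟨l, fun _ => hl⟩
    · exact ⟨[], fun h' => absurd h' h⟩
  choose wk hwk using hwk
  -- the winners
  let W : T.Vertex → T.Vertex → Out T.Vertex (2 * 64) m → ℕ → T.Vertex :=
    fun v w ω i => c (shift ω) (pos T (wk v w) v i)
  have hWnear : ∀ v w ω i, T.Near R v w → T.Near (R + L) v (W v w ω i) := by
    intro v w ω i h
    have h1 := near_mono T (hwk v w h).1 (pos_near T (wk v w) v w (hwk v w h).2 i)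
    have h2 := (hc1 (shift ω) (hshift ω)).2 (pos T (wk v w) v i)
    exact near_trans T R L v _ _ h1 h2
  let G : T.Vertex → T.Vertex → Out T.Vertex (2 * 64) m → Prop :=
    fun v w ω => (∀ i < R + 1, ((ω (W v w ω i)).2 : ℕ) ≠ 0) ∧
        k ≤ ((range (R + 1)).image (W v w ω)).card
  let Z : T.Vertex → Out T.Vertex (2 * 64) m → Prop := fun u ω => ((ω u).2 : ℕ) = 0
  let E : T.Vertex → Out T.Vertex (2 * 64) m → Prop := fun v ω =>
    (∃ u, T.Near (R + L) v u ∧ Z u ω) ∨ (∃ w, T.Near R v w ∧ G v w ω)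
  let Q : T.Vertex → Finset T.Vertex := fun v => univ.filter (fun u => T.Near (R + L) v u)
  have hQ : ∀ v u, u ∈ Q v ↔ T.Near (R + L) v u := by
    intro v u
    simp [Q]
  -- E v depends on the coordinates in Q v
  have hdepW : ∀ (v w : T.Vertex) (ω ω' : Out T.Vertex (2 * 64) m), (∀ u ∈ Q v, ω u = ω' u) →
      T.Near R v w → ∀ i, W v w ω i = W v w ω' i := by
    intro v w ω ω' hω h i
    apply hc2 (shift ω) (shift ω') _ (hshift ω) (hshift ω')
    intro u hu
    have h1 := near_mono T (hwk v w h).1 (pos_near T (wk v w) v w (hwk v w h).2 i)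
    have h2 : u ∈ Q v := (hQ v u).2 (near_trans T R L v _ _ h1 hu)
    unfold shift
    rw [hω u h2]
  have hdep1 : ∀ (v : T.Vertex) (ω ω' : Out T.Vertex (2 * 64) m), (∀ u ∈ Q v, ω u = ω' u) →
      E v ω → E v ω' := by
    intro v ω ω' hω h
    rcases h with ⟨u, hu, h⟩ | ⟨w, hw, h⟩
    · refine Or.inl ⟨u, hu, ?_⟩
      show ((ω' u).2 : ℕ) = 0
      rw [← hω u ((hQ v u).2 hu)]
      exact h
    · refine Or.inr ⟨w, hw, ?_, ?_⟩
      · intro i hi
        rw [← hdepW v w ω ω' hω hw i, ← hω _ ((hQ v _).2 (hWnear v w ω i hw))]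
        exact h.1 i hi
      · have : W v w ω' = W v w ω := funext fun i => (hdepW v w ω ω' hω hw i).symm
        rw [this]
        exact h.2
  have hdep : ∀ v, DepOn (Q v) (E v) := by
    intro v ω ω' hω
    exact ⟨hdep1 v ω ω' hω, hdep1 v ω' ω (fun u hu => (hω u hu).symm)⟩
  -- ball sizes
  have hball' : ∀ (j : ℕ) (v : T.Vertex), j ≤ r →
      (univ.filter (fun u => T.Near j v u)).card ≤ 2 ^ (r / 2 ^ 14) := by
    intro j v hj
    refine le_trans (Finset.card_le_card ?_) (le_trans (le_of_eq (card_filter_eq _)) (hball v))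
    intro u hu
    rw [Finset.mem_filter] at hu ⊢
    exact ⟨hu.1, near_mono T hj hu.2⟩
  have hmeet : ∀ v, (univ.filter (fun w => ¬ Disjoint (Q v) (Q w))).card ≤ 2 ^ (r / 2 ^ 14) := by
    intro v
    refine le_trans (Finset.card_le_card ?_) (hball' r v le_rfl)
    intro w hw
    rw [Finset.mem_filter] at hw ⊢
    refine ⟨hw.1, ?_⟩
    obtain ⟨u, hu1, hu2⟩ := Finset.not_disjoint_iff.1 hw.2
    have h1 := (hQ v u).1 hu1
    have h2 := hsym _ _ _ ((hQ w u).1 hu2)
    exact near_mono T (by omega) (near_trans T _ _ _ _ _ h1 h2)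
  -- counts
  obtain ⟨A, hA⟩ : ∃ A, A = Fintype.card (Out T.Vertex (2 * 64) m) := ⟨_, rfl⟩
  obtain ⟨N1, hN1⟩ : ∃ N, N = A / 2 ^ m := ⟨_, rfl⟩
  obtain ⟨N2, hN2⟩ : ∃ N, N = (2 ^ (B + k) * A) / 3 ^ k := ⟨_, rfl⟩
  have hN1' : N1 * 2 ^ m ≤ A := by
    rw [hN1]; exact Nat.div_mul_le_self _ _
  have hN2' : N2 * 3 ^ k ≤ 2 ^ (B + k) * A := by
    rw [hN2]; exact Nat.div_mul_le_self _ _
  have hZc : ∀ u, (univ.filter (Z u)).card ≤ N1 := by
    intro u
    rw [hN1, Nat.le_div_iff_mul_le (by positivity), hA]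
    exact hHIGH T.Vertex (2 * 64) m u
  have hGc : ∀ v w, T.Near R v w → (univ.filter (G v w)).card ≤ N2 := by
    intro v w h
    rw [hN2, Nat.le_div_iff_mul_le (by positivity), hA]
    have hw := (hwk v w h).2
    have hstep : ∀ (u : T.Vertex) (i : ℕ),
        T.td L u (pos T (wk v w) v i) ≤ T.td L u (pos T (wk v w) v (i + 1)) + 1 ∧
        T.td L u (pos T (wk v w) v (i + 1)) ≤ T.td L u (pos T (wk v w) v i) + 1 := by
      intro u i
      rcases pos_step T (wk v w) v w hw i with h' | ⟨d, h1, h2⟩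
      · rw [h']; omega
      · rw [← h1, ← h2]
        exact ⟨(hTDF D T L).2.2.1 u d, (hTDF D T L).2.2.2.1 u d⟩
    have hLip : ∀ (u : T.Vertex) (i j : ℕ), i ≤ j →
        T.td L u (pos T (wk v w) v i) ≤ T.td L u (pos T (wk v w) v j) + (j - i) ∧
        T.td L u (pos T (wk v w) v j) ≤ T.td L u (pos T (wk v w) v i) + (j - i) := by
      intro u i j hij
      obtain ⟨t, rfl⟩ := Nat.exists_eq_add_of_le hij
      clear hij
      induction t with
      | zero => simp
      | succ t ih =>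
        have h1 := hstep u (i + t)
        have e : i + (t + 1) = (i + t) + 1 := by omega
        rw [e]
        constructor
        · have := ih.1; omega
        · have := ih.2; omega
    have := hCNT T.Vertex 64 m (R + 1) B n (fun u i => T.td L u (pos T (wk v w) v i)) ord
      (W v w) (by norm_num) hPB hord.1 hLip (by
        intro ω i u _ hu
        exact (hc1 (shift ω) (hshift ω)).1 (pos T (wk v w) v i) u hu) k
    exact this
  have hEc : ∀ v, (univ.filter (E v)).card ≤ 2 ^ (r / 2 ^ 14) * N1 + 2 ^ (r / 2 ^ 14) * N2 := by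
    intro v
    have hsub : univ.filter (E v) ⊆
        ((univ.filter (fun u => T.Near (R + L) v u)).biUnion (fun u => univ.filter (Z u))) ∪
        ((univ.filter (fun w => T.Near R v w)).biUnion (fun w => univ.filter (G v w))) := by
      intro ω hω
      rw [Finset.mem_filter] at hω
      rw [Finset.mem_union, Finset.mem_biUnion, Finset.mem_biUnion]
      rcases hω.2 with ⟨u, hu, h⟩ | ⟨w, hw, h⟩
      · exact Or.inl ⟨u, by simp [hu], by simp [h]⟩
      · refine Or.inr ⟨w, by simp [hw], ?_⟩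
        rw [Finset.mem_filter]
        exact ⟨Finset.mem_univ _, h⟩
    refine le_trans (Finset.card_le_card hsub) (le_trans (Finset.card_union_le _ _) ?_)
    apply Nat.add_le_add
    · refine le_trans (Finset.card_biUnion_le_card_mul _ _ N1 (fun u _ => hZc u)) ?_
      exact Nat.mul_le_mul_right _ (hball' (R + L) v (by omega))
    · refine le_trans (Finset.card_biUnion_le_card_mul _ _ N2 (fun w hw => hGc v w ?_)) ?_
      · exact (Finset.mem_filter.1 hw).2
      · exact Nat.mul_le_mul_right _ (hball' R v (by omega))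
  have hprob : ∀ v, 6 * 2 ^ (r / 2 ^ 14) * (univ.filter (E v)).card ≤
      Fintype.card (T.Vertex → Fin (2 * 64) × Fin (2 ^ m)) := by
    intro v
    have h1 := hNUM r A N1 N2 hr (by rw [← hm]; exact hN1')
      (by rw [← hB, ← hk]; exact hN2')
    have h2 : 6 * 2 ^ (r / 2 ^ 14) * (univ.filter (E v)).card ≤
        6 * 2 ^ (r / 2 ^ 14) * (2 ^ (r / 2 ^ 14) * N1 + 2 ^ (r / 2 ^ 14) * N2) :=
      Nat.mul_le_mul_left _ (hEc v)
    calc _ ≤ _ := h2
      _ ≤ A := h1
      _ = _ := hA
  have : Nonempty (Fin (2 * 64) × Fin (2 ^ m)) :=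
    ⟨(⟨0, by norm_num⟩, ⟨0, by positivity⟩)⟩
  obtain ⟨ω, hω⟩ := hLLS T.Vertex (Fin (2 * 64) × Fin (2 ^ m)) E Q (2 ^ (r / 2 ^ 14))
    (Nat.one_le_two_pow) hdep hmeet (fun v => by convert hprob v)
  refine ⟨L, n, shift ω, ord, c (shift ω), hLr, hshift ω, hord.1,
    (hc1 (shift ω) (hshift ω)).1, ?_⟩
  intro v w hvw
  rw [← hR] at hvw ⊢
  refine ⟨wk v w, (hwk v w hvw).2, (hwk v w hvw).1, ?_⟩
  have hE := hω v
  have hZ : ∀ u, T.Near (R + L) v u → ((ω u).2 : ℕ) ≠ 0 := by
    intro u hu h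
    exact hE (Or.inl ⟨u, hu, h⟩)
  have hG : ¬ G v w ω := fun h => hE (Or.inr ⟨w, hvw, h⟩)
  have hcard : ((range (R + 1)).image (W v w ω)).card < k := by
    by_contra hcon
    push Not at hcon
    exact hG ⟨fun i _ => hZ _ (hWnear v w ω i hvw), hcon⟩
  have hncen : ncen T (c (shift ω)) v (wk v w) ≤ ((range (R + 1)).image (W v w ω)).card := by
    unfold ncen
    apply Finset.card_le_card
    intro x hx
    rw [Finset.mem_image]
    rcases Finset.mem_insert.1 hx with rfl | hx
    · exact ⟨0, by simp, by show c (shift ω) (pos T (wk v w) v 0) = _; rw [pos_zero]⟩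
    · rw [List.mem_toFinset, List.mem_map] at hx
      obtain ⟨d, hd, rfl⟩ := hx
      obtain ⟨i, hi, h⟩ := pos_mem T (wk v w) v d hd
      have := (hwk v w hvw).1
      exact ⟨i, by rw [Finset.mem_range]; omega,
        by show c (shift ω) (pos T (wk v w) v i) = _; rw [h]⟩
  omega

end ESub
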