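import Pool.Agent.Work.MP_a2fb93_ev.Interface

/-! # POT: the potential -/

set_option autoImplicit false

namespace ESub

open Finset Classical

section

variable {D : Type} (T : Triangulation D) (ρ : D → Aff ℤ)

/-- the translation part of the product along a walk -/
noncomputable def POT_t (l : List D) : ℝ := ((((l.map ρ).prod).t : ℤ) : ℝ)

/-- the walks which start at `v` -/
def POT_W (v : T.Vertex) : Set (List D) := {l | ∃ w, T.IsWalk l v w}

theorem POT_cons (d : D) (l : List D) : POT_t ρ (d :: l) =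
    (((ρ d).t : ℤ) : ℝ) + ((((ρ d).s : ℤ) : ℝ)) * POT_t ρ l := by
  unfold POT_t
  rw [List.map_cons, List.prod_cons, Aff.mul_t]
  push_cast
  ring

theorem POT_nil (v : T.Vertex) : [] ∈ POT_W T v := ⟨v, rfl⟩

theorem POT_mem (d : D) {l : List D} (h : l ∈ POT_W T (T.tgt d)) :
    d :: l ∈ POT_W T (T.org d) := by
  obtain ⟨w, hw⟩ := h
  exact ⟨w, rfl, hw⟩

/-- the lower envelope -/
noncomputable def POT_A (v : T.Vertex) : ℝ :=
  sInf ((fun l => POT_t ρ l + (l.length : ℝ) / 4) '' POT_W T v)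

/-- the upper envelope -/
noncomputable def POT_B (v : T.Vertex) : ℝ :=
  sSup ((fun l => POT_t ρ l - (l.length : ℝ) / 4) '' POT_W T v)

variable {T ρ} {C : ℝ} (hC : ∀ (l : List D) (v w : T.Vertex), T.IsWalk l v w →
      |((((l.map ρ).prod).t : ℤ) : ℝ)| ≤ (l.length : ℝ) / 4 + C)

include hC

theorem POT_A_le {v : T.Vertex} {l : List D} (h : l ∈ POT_W T v) :
    POT_A T ρ v ≤ POT_t ρ l + (l.length : ℝ) / 4 := by
  refine csInf_le ⟨-C, ?_⟩ ⟨l, h, rfl⟩
  rintro _ ⟨l, ⟨w, hw⟩, rfl⟩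
  have h1 := (abs_le.1 (hC l v w hw)).1
  change -C ≤ POT_t ρ l + (l.length : ℝ) / 4
  unfold POT_t
  linarith

theorem POT_le_B {v : T.Vertex} {l : List D} (h : l ∈ POT_W T v) :
    POT_t ρ l - (l.length : ℝ) / 4 ≤ POT_B T ρ v := by
  refine le_csSup ⟨C, ?_⟩ ⟨l, h, rfl⟩
  rintro _ ⟨l, ⟨w, hw⟩, rfl⟩
  have h1 := (abs_le.1 (hC l v w hw)).2
  change POT_t ρ l - (l.length : ℝ) / 4 ≤ C
  unfold POT_t
  linarith

omit hC in
theorem POT_le_A {v : T.Vertex} {a : ℝ}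
    (h : ∀ l ∈ POT_W T v, a ≤ POT_t ρ l + (l.length : ℝ) / 4) : a ≤ POT_A T ρ v := by
  refine le_csInf ⟨_, [], POT_nil T v, rfl⟩ ?_
  rintro _ ⟨l, hl, rfl⟩
  exact h l hl

omit hC in
theorem POT_B_le {v : T.Vertex} {a : ℝ}
    (h : ∀ l ∈ POT_W T v, POT_t ρ l - (l.length : ℝ) / 4 ≤ a) : POT_B T ρ v ≤ a := by
  refine csSup_le ⟨_, [], POT_nil T v, rfl⟩ ?_
  rintro _ ⟨l, hl, rfl⟩
  exact h l hl

/-- the case of sign `1` -/
theorem POT_pos (d : D) (hs : (ρ d).s = 1) :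
    POT_A T ρ (T.org d) ≤ ((ρ d).t : ℝ) + POT_A T ρ (T.tgt d) + 1 / 4 ∧
    ((ρ d).t : ℝ) + POT_B T ρ (T.tgt d) - 1 / 4 ≤ POT_B T ρ (T.org d) := by
  constructor
  · have h1 : POT_A T ρ (T.org d) - ((ρ d).t : ℝ) - 1 / 4 ≤ POT_A T ρ (T.tgt d) := by
      refine POT_le_A fun l hl => ?_
      have h2 := POT_A_le hC (POT_mem T d hl)
      rw [POT_cons, hs, List.length_cons] at h2
      push_cast at h2
      linarith
    linarith
  · have h1 : POT_B T ρ (T.tgt d) ≤ POT_B T ρ (T.org d) - ((ρ d).t : ℝ) + 1 / 4 := by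
      refine POT_B_le fun l hl => ?_
      have h2 := POT_le_B hC (POT_mem T d hl)
      rw [POT_cons, hs, List.length_cons] at h2
      push_cast at h2
      linarith
    linarith

/-- the case of sign `-1` -/
theorem POT_neg (d : D) (hs : (ρ d).s = -1) :
    POT_A T ρ (T.org d) ≤ ((ρ d).t : ℝ) - POT_B T ρ (T.tgt d) + 1 / 4 ∧
    ((ρ d).t : ℝ) - POT_A T ρ (T.tgt d) - 1 / 4 ≤ POT_B T ρ (T.org d) := by
  constructor
  · have h1 : POT_B T ρ (T.tgt d) ≤ ((ρ d).t : ℝ) - POT_A T ρ (T.org d) + 1 / 4 := by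
      refine POT_B_le fun l hl => ?_
      have h2 := POT_A_le hC (POT_mem T d hl)
      rw [POT_cons, hs, List.length_cons] at h2
      push_cast at h2
      linarith
    linarith
  · have h1 : ((ρ d).t : ℝ) - POT_B T ρ (T.org d) - 1 / 4 ≤ POT_A T ρ (T.tgt d) := by
      refine POT_le_A fun l hl => ?_
      have h2 := POT_le_B hC (POT_mem T d hl)
      rw [POT_cons, hs, List.length_cons] at h2
      push_cast at h2
      linarith
    linarith

end

theorem p_POT : Stmt_POT := by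
  intro D _ T ρ hflat C hC
  refine ⟨fun v => (POT_A T ρ v + POT_B T ρ v) / 2, fun d => ?_⟩
  have ho : T.org (T.inv d) = T.tgt d := rfl
  have ht : T.tgt (T.inv d) = T.org d := by
    unfold Triangulation.tgt
    rw [T.inv_inv]
  have hρ : ρ (T.inv d) = (ρ d)⁻¹ := hflat.inv d
  rcases Int.units_eq_one_or (ρ d).s with hs | hs
  · obtain ⟨h1, h2⟩ := POT_pos hC d hs
    obtain ⟨h3, h4⟩ := POT_pos hC (T.inv d) (by rw [hρ, Aff.inv_s, hs])
    rw [ho, ht, hρ, Aff.inv_t, hs] at h3 h4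
    push_cast at h3 h4
    rw [hs, abs_le]
    push_cast
    constructor <;> linarith
  · obtain ⟨h1, h2⟩ := POT_neg hC d hs
    obtain ⟨h3, h4⟩ := POT_neg hC (T.inv d) (by rw [hρ, Aff.inv_s, hs])
    rw [ho, ht, hρ, Aff.inv_t, hs] at h3 h4
    push_cast at h3 h4
    rw [hs, abs_le]
    push_cast
    constructor <;> linarith

end ESub
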