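import Pool.Agent.Work.MP_a2fb93_ev.Interface
set_option autoImplicit false

/-! Block REACH (helper96). -/

namespace ESub

open Finset Classical

/-- x is reached from φ by exactly n allowed steps -/
def REACH_R {S H : Type} (a b : H → S) (P : H → Prop) (φ : S) : ℕ → S → Prop
  | 0, x => x = φ
  | n + 1, x => ∃ h, P h ∧ b h = x ∧ REACH_R a b P φ n (a h)

theorem REACH_ex {S H : Type} (a b : H → S) (P : H → Prop) (φ ψ : S)
    (h : Relation.ReflTransGen (fun x y => ∃ h, P h ∧ a h = x ∧ b h = y) φ ψ) :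
    ∃ n, REACH_R a b P φ n ψ := by
  induction h with
  | refl => exact ⟨0, rfl⟩
  | tail _ h2 ih =>
    obtain ⟨n, hn⟩ := ih
    obtain ⟨h, hP, ha, hb⟩ := h2
    refine ⟨n + 1, h, hP, hb, ?_⟩
    rw [ha]
    exact hn

theorem REACH_ind {S H : Type} [Fintype S] [Fintype H] (a b : H → S) (P : H → Prop) (φ : S) :
    ∀ (n : ℕ) (ψ : S), REACH_R a b P φ n ψ → (∀ m < n, ¬ REACH_R a b P φ m ψ) →
    ∃ F : Finset H, (∀ h ∈ F, P h) ∧ (∀ h ∈ F, ∃ m < n, REACH_R a b P φ m (a h)) ∧
      ∀ x : S, ((F.filter (fun h => a h = x)).card : ℤ) - ((F.filter (fun h => b h = x)).card : ℤ) =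
        (if x = φ then 1 else 0) - (if x = ψ then 1 else 0) := by
  intro n
  induction n with
  | zero =>
    intro ψ h _
    have h' : ψ = φ := h
    subst h'
    exact ⟨∅, by simp, by simp, by simp⟩
  | succ n ih =>
    intro ψ h hmin
    obtain ⟨k, hP, hb, hR⟩ := h
    obtain ⟨F, hF1, hF2, hF3⟩ := ih (a k) hR (fun m hm hm' =>
      hmin (m + 1) (by omega) ⟨k, hP, hb, hm'⟩)
    have hk : k ∉ F := by
      intro hk
      obtain ⟨m, hm, hm'⟩ := hF2 k hk
      exact hmin (m + 1) (by omega) ⟨k, hP, hb, hm'⟩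
    refine ⟨insert k F, ?_, ?_, ?_⟩
    · intro h hh
      rcases mem_insert.1 hh with rfl | hh
      · exact hP
      · exact hF1 h hh
    · intro h hh
      rcases mem_insert.1 hh with rfl | hh
      · exact ⟨n, by omega, hR⟩
      · obtain ⟨m, hm, hm'⟩ := hF2 h hh
        exact ⟨m, by omega, hm'⟩
    · intro x
      have h3 := hF3 x
      have e : ∀ g : H → S, (((insert k F).filter (fun h => g h = x)).card : ℤ) =
          ((F.filter (fun h => g h = x)).card : ℤ) + (if x = g k then 1 else 0) := by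
        intro g
        rw [filter_insert]
        by_cases hg : g k = x
        · rw [if_pos hg, if_pos hg.symm, card_insert_of_notMem (fun h => hk (mem_filter.1 h).1)]
          push_cast
          ring
        · rw [if_neg hg, if_neg (fun h => hg h.symm), add_zero]
      rw [e a, e b, hb]
      linarith

theorem p_REACH : Stmt_REACH := by
  intro S H _ _ a b P φ ψ h
  have hex := REACH_ex a b P φ ψ h
  obtain ⟨F, h1, -, h3⟩ := REACH_ind a b P φ (Nat.find hex) ψ (Nat.find_spec hex)
    (fun m hm => Nat.find_min hex hm)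
  exact ⟨F, h1, h3⟩

end ESub
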