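import Pool.Agent.Work.MP_a2fb93_ev.Interface
set_option autoImplicit false

/-! Block TDF: properties of the truncated distance (helper65). -/

namespace ESub

open Finset Classical

namespace Triangulation

variable {D : Type}

theorem TDF_succ (T : Triangulation D) {n : ℕ} {v w : T.Vertex} (h : T.Near n v w) :
    T.Near (n + 1) v w := Or.inl h

theorem TDF_mono (T : Triangulation D) {v w : T.Vertex} {n m : ℕ} (hnm : n ≤ m)
    (h : T.Near n v w) : T.Near m v w := by
  induction hnm with
  | refl => exact h
  | step _ ih => exact T.TDF_succ ih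

theorem TDF_mem (T : Triangulation D) (L : ℕ) (u v : T.Vertex) :
    T.td L u v = L + 1 ∨ T.Near (T.td L u v) v u :=
  Nat.sInf_mem (s := {n | n = L + 1 ∨ T.Near n v u}) ⟨L + 1, Or.inl rfl⟩

theorem TDF_le (T : Triangulation D) {L n : ℕ} {u v : T.Vertex} (h : T.Near n v u) :
    T.td L u v ≤ n := Nat.sInf_le (Or.inr h)

theorem TDF_le_succ (T : Triangulation D) (L : ℕ) (u v : T.Vertex) : T.td L u v ≤ L + 1 :=
  Nat.sInf_le (Or.inl rfl)

theorem TDF_step (T : Triangulation D) (L : ℕ) (u : T.Vertex) (d : D) :
    T.td L u (T.org d) ≤ T.td L u (T.tgt d) + 1 := by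
  rcases T.TDF_mem L u (T.tgt d) with h | h
  · have := T.TDF_le_succ L u (T.org d)
    omega
  · exact T.TDF_le (Or.inr ⟨d, rfl, h⟩)

end Triangulation

theorem p_TDF (_hVTX : Stmt_VTX) : Stmt_TDF := by
  intro D _ T L
  refine ⟨T.TDF_le_succ L, ?_, T.TDF_step L, ?_, ?_, ?_, ?_⟩
  · intro v
    exact Nat.le_zero.1 (T.TDF_le (n := 0) rfl)
  · intro u d
    have h := T.TDF_step L u (T.inv d)
    unfold Triangulation.tgt at h ⊢
    rwa [T.inv_inv] at h
  · intro u v h
    rcases T.TDF_mem L u v with h1 | h1
    · omega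
    · rw [h] at h1
      exact Eq.symm h1
  · intro u v k h hk
    rcases T.TDF_mem L u v with h1 | h1
    · omega
    · rw [h] at h1
      rcases h1 with h1 | ⟨d, hd, h1⟩
      · have := T.TDF_le (L := L) h1
        omega
      · refine ⟨d, hd, ?_⟩
        have h2 := T.TDF_le (L := L) h1
        have h3 := T.TDF_step L u d
        rw [hd, h] at h3
        omega
  · intro u v
    constructor
    · intro h
      rcases T.TDF_mem L u v with h1 | h1
      · omega
      · exact T.TDF_mono h h1
    · intro h
      exact T.TDF_le h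

end ESub
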