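import Pool.Agent.Work.MP_a2fb93_ev.Interface

/-! # MP_a2fb93_co, block TRA: the translation along a walk is bounded by the number of clusters
(helper94) -/

set_option autoImplicit false

namespace ESub

open Finset Classical

theorem TRA_split {D : Type} (T : Triangulation D) (c : T.Vertex → T.Vertex) (a : T.Vertex) :
    ∀ (l : List D) (v w : T.Vertex), T.IsWalk l v w →
      (∀ d ∈ l, c (T.tgt d) ≠ a) ∨ ∃ (l1 l2 : List D) (u : T.Vertex), l = l1 ++ l2 ∧
        T.IsWalk l1 v u ∧ T.IsWalk l2 u w ∧ c u = a ∧ ∀ d ∈ l2, c (T.tgt d) ≠ a := by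
  intro l
  induction l with
  | nil =>
    intro v w _
    left
    intro d hd
    simp at hd
  | cons d l ih =>
    intro v w h
    obtain ⟨h1, h2⟩ := h
    rcases ih (T.tgt d) w h2 with h3 | ⟨l1, l2, u, h3, h4, h5, h6, h7⟩
    · by_cases h4 : c (T.tgt d) = a
      · right
        exact ⟨[d], l, T.tgt d, rfl, ⟨h1, rfl⟩, h2, h4, h3⟩
      · left
        intro e he
        rcases List.mem_cons.1 he with rfl | he
        · exact h4
        · exact h3 e he
    · right
      refine ⟨d :: l1, l2, u, ?_, ⟨h1, h4⟩, h5, h6, h7⟩
      rw [h3]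
      rfl

theorem TRA_split' {D : Type} (T : Triangulation D) (c : T.Vertex → T.Vertex)
    (l : List D) (v w : T.Vertex) (h : T.IsWalk l v w) :
    ∃ (l1 l2 : List D) (u : T.Vertex), l = l1 ++ l2 ∧
        T.IsWalk l1 v u ∧ T.IsWalk l2 u w ∧ c u = c v ∧ ∀ d ∈ l2, c (T.tgt d) ≠ c v := by
  rcases TRA_split T c (c v) l v w h with h1 | h1
  · exact ⟨[], l, v, rfl, rfl, h, rfl, h1⟩
  · exact h1

theorem TRA_one {D G : Type} [Monoid G] (ρ : D → G) (l : List D) (h : ∀ d ∈ l, ρ d = 1) :
    (l.map ρ).prod = 1 := by
  apply List.prod_eq_one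
  intro x hx
  obtain ⟨d, hd, rfl⟩ := List.mem_map.1 hx
  exact h d hd

theorem p_TRA (hVTX : Stmt_VTX) (hHOL : Stmt_HOL) : Stmt_TRA := by
  intro D _ T n L R hw hRL c γ hγ1 hγ2 hγ3 ρ hρ1 hρ2 hρ3
  obtain ⟨-, -, -, -, -, -, -, happ, hrev, -, -, hinv⟩ := hVTX D T
  have hγρ : ∀ v, ((γ v).map ρ).prod = 1 := fun v => TRA_one ρ _ fun d hd => hρ3 d (hγ3 v d hd)
  have hrlen : ∀ l : List D, (T.rev l).length = l.length := by
    intro l
    unfold Triangulation.rev
    rw [List.length_reverse, List.length_map]
  -- walks with ends in one cluster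
  have hclosed : ∀ (l : List D) (v u : T.Vertex), T.IsWalk l v u → l.length ≤ R → c u = c v →
      (l.map ρ).prod = 1 := by
    intro l v u hl hlen hc
    have h1 : T.IsWalk (l ++ (γ u ++ T.rev (γ v))) v v := by
      refine happ _ _ _ _ _ hl (happ _ _ _ _ _ (hγ1 u) ?_)
      rw [hc]
      exact hrev _ _ _ (hγ1 v)
    have h2 : (l ++ (γ u ++ T.rev (γ v))).length < n := by
      rw [List.length_append, List.length_append, hrlen]
      have h3 := hγ2 u
      have h4 := hγ2 v
      omega
    have h3 := hHOL D T n hw _ v h1 h2 (Aff ℤ) ρ hρ1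
    rw [List.map_append, List.map_append, List.prod_append, List.prod_append, hγρ,
      hinv (Aff ℤ) ρ hρ1, hγρ] at h3
    simpa using h3
  -- the induction
  have key : ∀ (k : ℕ) (l : List D) (v w : T.Vertex), l.length = k → T.IsWalk l v w →
      l.length ≤ R → |((l.map ρ).prod).t| + 4 ≤ 4 * (ncen T c v l : ℤ) := by
    intro k
    induction k using Nat.strong_induction_on with
    | _ k ih =>
      intro l v w hk hl hlen
      obtain ⟨l1, l2, u, hl12, hl1, hl2, hcu, hne⟩ := TRA_split' T c l v w hl
      have hlen12 : l.length = l1.length + l2.length := by rw [hl12, List.length_append]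
      have h1 : (l1.map ρ).prod = 1 := hclosed l1 v u hl1 (by omega) hcu
      have hprod : (l.map ρ).prod = (l2.map ρ).prod := by
        rw [hl12, List.map_append, List.prod_append, h1, one_mul]
      rw [hprod]
      cases l2 with
      | nil =>
        have h2 : 1 ≤ ncen T c v l := by
          unfold ncen
          exact Finset.card_pos.2 ⟨c v, Finset.mem_insert_self _ _⟩
        have h3 : ((([] : List D).map ρ).prod).t = 0 := rfl
        rw [h3, abs_zero]
        have h4 : (1 : ℤ) ≤ (ncen T c v l : ℤ) := by exact_mod_cast h2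
        linarith
      | cons d l3 =>
        obtain ⟨-, hl3⟩ := hl2
        have hlen3 : l.length = l1.length + (l3.length + 1) := by
          rw [hlen12, List.length_cons]
        have h2 := ih l3.length (by omega) l3 (T.tgt d) w rfl hl3 (by omega)
        have h3 : ncen T c (T.tgt d) l3 + 1 ≤ ncen T c v l := by
          unfold ncen
          rw [← Finset.card_insert_of_notMem (a := c v)]
          · refine Finset.card_le_card ?_
            intro x hx
            rw [Finset.mem_insert, Finset.mem_insert, List.mem_toFinset, List.mem_map] at hx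
            rw [Finset.mem_insert, List.mem_toFinset, List.mem_map]
            rcases hx with hx | hx | ⟨e, he, hx⟩
            · exact Or.inl hx
            · right
              refine ⟨d, ?_, hx.symm⟩
              rw [hl12]
              exact List.mem_append_right _ List.mem_cons_self
            · right
              refine ⟨e, ?_, hx⟩
              rw [hl12]
              exact List.mem_append_right _ (List.mem_cons_of_mem _ he)
          · rw [Finset.mem_insert, List.mem_toFinset, List.mem_map]
            rintro (h4 | ⟨e, he, h4⟩)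
            · exact hne d List.mem_cons_self h4.symm
            · exact hne e (List.mem_cons_of_mem _ he) h4
        have h4 : (((d :: l3).map ρ).prod).t = (ρ d).t + (((ρ d).s : ℤ)) * ((l3.map ρ).prod).t := by
          rw [List.map_cons, List.prod_cons, Aff.mul_t]
          simp
        rw [h4]
        have h5 : |(ρ d).t + (((ρ d).s : ℤ)) * ((l3.map ρ).prod).t| ≤ 4 + |((l3.map ρ).prod).t| := by
          refine (abs_add_le _ _).trans (add_le_add (hρ2 d) (le_of_eq ?_))
          rw [abs_mul]
          rcases Int.units_eq_one_or (ρ d).s with h6 | h6 <;> rw [h6] <;> simp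
        have h6 : ((ncen T c (T.tgt d) l3 : ℤ)) + 1 ≤ (ncen T c v l : ℤ) := by exact_mod_cast h3
        linarith
  intro l v w hl hlen
  exact key _ l v w rfl hl hlen

end ESub
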