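import Pool.Agent.Work.MP_a2fb93_ev.Interface
set_option autoImplicit false

/-! # MP_a2fb93_co, block TRB: all walks (helper29) -/

namespace ESub

open Finset Classical

theorem p_TRB (hVTX : Stmt_VTX) (hHOL : Stmt_HOL) (hTRA : Stmt_TRA) : Stmt_TRB := by
  intro D _ T n L R hR hw hRL hRR c γ hγ1 hγ2 hγ3 hch ρ hρ1 hρ2 hρ3
  obtain ⟨-, -, -, -, -, -, -, happ, hrev, hsplit, hnear, hinv⟩ := hVTX D T
  have hrlen : ∀ l : List D, (T.rev l).length = l.length := by
    intro l
    unfold Triangulation.rev
    rw [List.length_reverse, List.length_map]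
  -- short walks
  have hshort : ∀ (l : List D) (v w : T.Vertex), T.IsWalk l v w → l.length ≤ R →
      |((((l.map ρ).prod).t : ℤ) : ℝ)| ≤ (R : ℝ) / 4 := by
    intro l v w hl hlen
    obtain ⟨l0, h1, h2, h3⟩ := hch v w ((hnear R v w).2 ⟨l, hlen, hl⟩)
    have h4 : T.IsWalk (l ++ T.rev l0) v v := happ _ _ _ _ _ hl (hrev _ _ _ h1)
    have h5 : (l ++ T.rev l0).length < n := by
      rw [List.length_append, hrlen]
      omega
    have h6 := hHOL D T n hw _ v h4 h5 (Aff ℤ) ρ hρ1
    rw [List.map_append, List.prod_append, hinv (Aff ℤ) ρ hρ1] at h6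
    have h7 : (l.map ρ).prod = (l0.map ρ).prod := mul_inv_eq_one.1 h6
    have h8 := hTRA D T n L R hw hRL c γ hγ1 hγ2 hγ3 ρ hρ1 hρ2 hρ3 l0 v w h1 h2
    rw [h7]
    have h9 : (|((l0.map ρ).prod).t| : ℤ) * 4 ≤ (R : ℤ) := by
      have : ((16 * ncen T c v l0 : ℕ) : ℤ) ≤ (R : ℤ) := by exact_mod_cast h3
      push_cast at this
      linarith
    have h10 : ((|((l0.map ρ).prod).t| * 4 : ℤ) : ℝ) ≤ ((R : ℤ) : ℝ) := by exact_mod_cast h9
    push_cast at h10
    linarith
  have key : ∀ (k : ℕ) (l : List D) (v w : T.Vertex), l.length = k → T.IsWalk l v w →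
      |((((l.map ρ).prod).t : ℤ) : ℝ)| ≤ (l.length : ℝ) / 4 + (R : ℝ) / 4 := by
    intro k
    induction k using Nat.strong_induction_on with
    | _ k ih =>
      intro l v w hk hl
      by_cases hlen : l.length ≤ R
      · have h1 := hshort l v w hl hlen
        have h2 : (0 : ℝ) ≤ (l.length : ℝ) := Nat.cast_nonneg _
        linarith
      · push Not at hlen
        have h1 : l.take R ++ l.drop R = l := List.take_append_drop R l
        obtain ⟨u, h2, h3⟩ := hsplit (l.take R) (l.drop R) v w (by rw [h1]; exact hl)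
        have h4 : (l.take R).length = R := by
          rw [List.length_take]; omega
        have h5 : (l.drop R).length = l.length - R := List.length_drop
        have h6 := hshort _ v u h2 (le_of_eq h4)
        have h7 := ih (l.drop R).length (by omega) (l.drop R) u w rfl h3
        have h8 : (l.map ρ).prod = ((l.take R).map ρ).prod * ((l.drop R).map ρ).prod := by
          rw [← List.prod_append, ← List.map_append, h1]
        rw [h8, Aff.mul_t]
        have h9 : ((l.drop R).length : ℝ) = (l.length : ℝ) - (R : ℝ) := by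
          rw [h5, Nat.cast_sub hlen.le]
        rw [h9] at h7
        generalize ((l.take R).map ρ).prod = a at h6 ⊢
        generalize ((l.drop R).map ρ).prod = b at h7 ⊢
        have h10 : |((a.t + ((a.s : ℤ) : ℤ) * b.t : ℤ) : ℝ)| ≤ |((a.t : ℤ) : ℝ)| + |((b.t : ℤ) : ℝ)| := by
          rcases Int.units_eq_one_or a.s with h11 | h11
          · rw [h11]
            have := abs_add_le ((a.t : ℤ) : ℝ) ((b.t : ℤ) : ℝ)
            simpa using this
          · rw [h11]
            have := abs_add_le ((a.t : ℤ) : ℝ) (-((b.t : ℤ) : ℝ))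
            rw [abs_neg] at this
            simpa using this
        refine le_trans h10 ?_
        linarith
  intro l v w hl
  exact key _ l v w rfl hl

end ESub
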