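import Pool.Agent.Work.MP_a2fb93_ev.Interface
set_option autoImplicit false
set_option linter.unusedSectionVars false

/-!
TUT (Tutte): a flow mod 3 on a cubic graph lifts to an integer flow with values of absolute value
at most 2.
-/

namespace ESub

open Finset Classical

section TUT

variable {H : Type} [Fintype H] (inv next : H → H)

/-- the orbit of a half edge -/
noncomputable def TUT_orb (h : H) : Finset H := {h, next h, next (next h)}

/-- the boundary -/
def TUT_dd (x : H → ℤ) (h : H) : ℤ := x h + x (next h) + x (next (next h))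

variable {inv next}

theorem TUT_inj (hn3 : ∀ h, next (next (next h)) = h) : Function.Injective next := by
  intro a b hab
  rw [← hn3 a, ← hn3 b, hab]

theorem TUT_ne2 (hn3 : ∀ h, next (next (next h)) = h) (hn : ∀ h, next h ≠ h) (h : H) :
    h ≠ next (next h) := by
  intro he
  apply hn h
  have := congrArg next he
  rw [hn3] at this
  exact this

theorem TUT_mem (hn3 : ∀ h, next (next (next h)) = h) (g h : H) :
    g ∈ TUT_orb next h ↔ TUT_orb next g = TUT_orb next h := by
  constructor
  · intro hg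
    unfold TUT_orb at hg
    rw [mem_insert, mem_insert, mem_singleton] at hg
    rcases hg with rfl | rfl | rfl
    · rfl
    · unfold TUT_orb
      rw [hn3]
      ext a
      simp only [mem_insert, mem_singleton]
      tauto
    · unfold TUT_orb
      rw [hn3]
      ext a
      simp only [mem_insert, mem_singleton]
      tauto
  · intro he
    rw [← he]
    unfold TUT_orb
    exact mem_insert_self _ _

theorem TUT_orb_next (hn3 : ∀ h, next (next (next h)) = h) (h : H) :
    TUT_orb next (next h) = TUT_orb next h := by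
  rw [← TUT_mem hn3]
  unfold TUT_orb
  exact mem_insert_of_mem (mem_insert_self _ _)

theorem TUT_sum3 (hn3 : ∀ h, next (next (next h)) = h) (hn : ∀ h, next h ≠ h) (f : H → ℤ) (h : H) :
    ∑ g ∈ TUT_orb next h, f g = f h + f (next h) + f (next (next h)) := by
  unfold TUT_orb
  rw [sum_insert, sum_insert, sum_singleton, add_assoc]
  · rw [mem_singleton]
    exact fun he => hn h (TUT_inj hn3 he).symm
  · rw [mem_insert, mem_singleton, not_or]
    exact ⟨fun he => hn h he.symm, TUT_ne2 hn3 hn h⟩

theorem TUT_cardA (hn3 : ∀ h, next (next (next h)) = h) (hn : ∀ h, next h ≠ h) (F : Finset H)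
    (h : H) (inst : DecidablePred fun g => TUT_orb next g = TUT_orb next h) :
    ((F.filter (fun g => TUT_orb next g = TUT_orb next h)).card : ℤ) =
      (if h ∈ F then 1 else 0) + (if next h ∈ F then 1 else 0) +
        (if next (next h) ∈ F then 1 else 0) := by
  have h1 : F.filter (fun g => TUT_orb next g = TUT_orb next h) =
      (TUT_orb next h).filter (fun g => g ∈ F) := by
    ext g
    rw [mem_filter, mem_filter, TUT_mem hn3]
    tauto
  rw [h1, card_filter]
  push_cast
  rw [TUT_sum3 hn3 hn (fun g => if g ∈ F then 1 else 0)]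

theorem TUT_cardB (hi : ∀ h, inv (inv h) = h) (hn3 : ∀ h, next (next (next h)) = h)
    (hn : ∀ h, next h ≠ h) (F : Finset H) (h : H)
    (inst : DecidablePred fun g => TUT_orb next (inv g) = TUT_orb next h) :
    ((F.filter (fun g => TUT_orb next (inv g) = TUT_orb next h)).card : ℤ) =
      (if inv h ∈ F then 1 else 0) + (if inv (next h) ∈ F then 1 else 0) +
        (if inv (next (next h)) ∈ F then 1 else 0) := by
  have hinj : Function.Injective inv := by
    intro a b hab
    rw [← hi a, ← hi b, hab]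
  have h1 : F.filter (fun g => TUT_orb next (inv g) = TUT_orb next h) =
      ((TUT_orb next h).filter (fun g => inv g ∈ F)).image inv := by
    ext g
    rw [mem_filter, mem_image]
    constructor
    · rintro ⟨h2, h3⟩
      refine ⟨inv g, ?_, hi g⟩
      rw [mem_filter, TUT_mem hn3, hi]
      exact ⟨h3, h2⟩
    · rintro ⟨g', h2, rfl⟩
      rw [mem_filter, TUT_mem hn3] at h2
      rw [hi]
      exact ⟨h2.2, h2.1⟩
  rw [h1, card_image_of_injective _ hinj, card_filter]
  push_cast
  rw [TUT_sum3 hn3 hn (fun g => if inv g ∈ F then 1 else 0)]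

/-- the admissible lifts -/
structure TUT_P (inv : H → H) (c : H → ZMod 3) (x : H → ℤ) : Prop where
  md : ∀ h, (x h : ZMod 3) = c h
  an : ∀ h, x (inv h) = -x h
  bd : ∀ h, |x h| ≤ 2
  ze : ∀ h, c h = 0 → x h = 0

theorem TUT_sumdd (hn3 : ∀ h, next (next (next h)) = h) (x : H → ℤ) (R : Finset H)
    (hR : ∀ h, next h ∈ R ↔ h ∈ R) : ∑ h ∈ R, TUT_dd next x h = 3 * ∑ h ∈ R, x h := by
  have h1 : ∀ f : H → ℤ, ∑ h ∈ R, f (next h) = ∑ h ∈ R, f h := by
    intro f
    refine sum_bij' (fun h _ => next h) (fun h _ => next (next h)) ?_ ?_ ?_ ?_ ?_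
    · intro h hh
      exact (hR h).2 hh
    · intro h hh
      exact (hR _).2 ((hR h).2 hh)
    · intro h _
      exact hn3 h
    · intro h _
      exact hn3 h
    · intro h _
      rfl
  unfold TUT_dd
  rw [sum_add_distrib, sum_add_distrib, h1 (fun h => x (next h)), h1 x]
  ring

theorem TUT_sumx (hi : ∀ h, inv (inv h) = h) (x : H → ℤ) (hx : ∀ h, x (inv h) = -x h)
    (R : Finset H) (hR : ∀ h ∈ R, inv h ∈ R) : ∑ h ∈ R, x h = 0 := by
  have h1 : ∑ h ∈ R, x (inv h) = ∑ h ∈ R, x h :=
    sum_bij' (fun h _ => inv h) (fun h _ => inv h) (fun h hh => hR h hh) (fun h hh => hR h hh)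
      (fun h _ => hi h) (fun h _ => hi h) (fun h _ => rfl)
  have h2 : ∑ h ∈ R, x (inv h) = -∑ h ∈ R, x h := by
    rw [← sum_neg_distrib]
    exact sum_congr rfl (fun h _ => hx h)
  omega

theorem TUT_step (hRE : Stmt_REACH) (hi : ∀ h, inv (inv h) = h)
    (hn3 : ∀ h, next (next (next h)) = h) (hn : ∀ h, next h ≠ h) (c : H → ZMod 3)
    (hc : ∀ h, c h + c (next h) + c (next (next h)) = 0) (x : H → ℤ) (hx : TUT_P inv c x)
    (hne : ∃ h, TUT_dd next x h ≠ 0) :
    ∃ y, TUT_P inv c y ∧ ∑ h, (TUT_dd next y h).natAbs < ∑ h, (TUT_dd next x h).natAbs := by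
  have hdn : ∀ h, TUT_dd next x (next h) = TUT_dd next x h := by
    intro h
    unfold TUT_dd
    rw [hn3]
    ring
  have h3 : ∀ h, (3 : ℤ) ∣ TUT_dd next x h := by
    intro h
    have h1 : ((TUT_dd next x h : ℤ) : ZMod 3) = 0 := by
      unfold TUT_dd
      push_cast
      rw [hx.md, hx.md, hx.md]
      exact hc h
    exact (ZMod.intCast_zmod_eq_zero_iff_dvd _ 3).1 h1
  -- a source
  obtain ⟨h0, hh0⟩ : ∃ h, 0 < TUT_dd next x h := by
    by_contra hcon
    push Not at hcon
    obtain ⟨h, hh⟩ := hne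
    have h1 := TUT_sumdd hn3 x univ (fun h => by simp)
    rw [TUT_sumx hi x hx.an univ (fun h _ => mem_univ _)] at h1
    have h2 : ∑ h, TUT_dd next x h < 0 := by
      refine sum_neg' (fun g _ => hcon g) ⟨h, mem_univ _, ?_⟩
      exact lt_of_le_of_ne (hcon h) hh
    omega
  set rel : Finset H → Finset H → Prop :=
    fun s t => ∃ h, 0 < x h ∧ TUT_orb next h = s ∧ TUT_orb next (inv h) = t with hrel
  -- a sink
  obtain ⟨h1, hh1, hr1⟩ : ∃ h, TUT_dd next x h < 0 ∧
      Relation.ReflTransGen rel (TUT_orb next h0) (TUT_orb next h) := by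
    by_contra hcon
    push Not at hcon
    set R : Finset H := univ.filter (fun h =>
      Relation.ReflTransGen rel (TUT_orb next h0) (TUT_orb next h)) with hR
    have hRm : ∀ h, h ∈ R ↔ Relation.ReflTransGen rel (TUT_orb next h0) (TUT_orb next h) := by
      intro h
      rw [hR, mem_filter]
      simp
    have hRn : ∀ h, next h ∈ R ↔ h ∈ R := by
      intro h
      rw [hRm, hRm, TUT_orb_next hn3]
    have e1 := TUT_sumdd hn3 x R hRn
    have e2 : 0 < ∑ h ∈ R, TUT_dd next x h := by
      refine sum_pos' (fun g hg => ?_) ⟨h0, (hRm h0).2 Relation.ReflTransGen.refl, hh0⟩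
      by_contra hneg
      exact hcon g (not_le.1 hneg) ((hRm g).1 hg)
    have e3 : ∑ h ∈ R, x h = ∑ h ∈ R.filter (fun h => inv h ∈ R), x h +
        ∑ h ∈ R.filter (fun h => ¬ inv h ∈ R), x h := by
      rw [sum_filter_add_sum_filter_not]
    have e4 : ∑ h ∈ R.filter (fun h => inv h ∈ R), x h = 0 := by
      refine TUT_sumx hi x hx.an _ (fun h hh => ?_)
      rw [mem_filter] at hh ⊢
      rw [hi]
      exact ⟨hh.2, hh.1⟩
    have e5 : ∑ h ∈ R.filter (fun h => ¬ inv h ∈ R), x h ≤ 0 := by
      refine sum_nonpos (fun h hh => ?_)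
      rw [mem_filter] at hh
      by_contra hpos
      apply hh.2
      rw [hRm]
      exact ((hRm h).1 hh.1).tail ⟨h, not_le.1 hpos, rfl, rfl⟩
    omega
  obtain ⟨F, hF, hcnt⟩ := hRE (Finset H) H (TUT_orb next) (fun h => TUT_orb next (inv h))
    (fun h => 0 < x h) (TUT_orb next h0) (TUT_orb next h1) hr1
  set y : H → ℤ := fun h => x h - 3 * (if h ∈ F then 1 else 0) + 3 * (if inv h ∈ F then 1 else 0)
    with hy
  have hdy : ∀ h, ∃ E : ℤ, TUT_dd next y h = TUT_dd next x h - 3 * E ∧
      (TUT_orb next h = TUT_orb next h0 → ¬ TUT_orb next h = TUT_orb next h1 → E = 1) ∧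
      (¬ TUT_orb next h = TUT_orb next h0 → TUT_orb next h = TUT_orb next h1 → E = -1) ∧
      (¬ TUT_orb next h = TUT_orb next h0 → ¬ TUT_orb next h = TUT_orb next h1 → E = 0) := by
    intro h
    have hh := hcnt (TUT_orb next h)
    rw [TUT_cardA hn3 hn, TUT_cardB hi hn3 hn] at hh
    set E : ℤ := ((if h ∈ F then 1 else 0) + (if next h ∈ F then 1 else 0) +
      (if next (next h) ∈ F then 1 else 0)) - ((if inv h ∈ F then 1 else 0) +
      (if inv (next h) ∈ F then 1 else 0) + (if inv (next (next h)) ∈ F then 1 else 0)) with hE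
    refine ⟨E, ?_, fun q0 q1 => ?_, fun q0 q1 => ?_, fun q0 q1 => ?_⟩
    · rw [hE]
      unfold TUT_dd
      simp only [hy]
      ring
    · rw [if_pos q0, if_neg q1] at hh
      rw [hh]
      norm_num
    · rw [if_neg q0, if_pos q1] at hh
      rw [hh]
      norm_num
    · rw [if_neg q0, if_neg q1] at hh
      rw [hh]
      norm_num
  have hdo : ∀ g h, TUT_orb next g = TUT_orb next h → TUT_dd next x g = TUT_dd next x h := by
    intro g h he
    rw [← TUT_mem hn3] at he
    unfold TUT_orb at he
    rw [mem_insert, mem_insert, mem_singleton] at he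
    rcases he with rfl | rfl | rfl
    · rfl
    · exact hdn _
    · rw [hdn, hdn]
  refine ⟨y, ⟨?_, ?_, ?_, ?_⟩, ?_⟩
  · intro h
    simp only [hy]
    push_cast
    rw [hx.md h]
    have h30 : (3 : ZMod 3) = 0 := rfl
    rw [h30]
    ring
  · intro h
    simp only [hy]
    rw [hi, hx.an h]
    ring
  · intro h
    simp only [hy]
    have b1 := abs_le.1 (hx.bd h)
    have b2 := hx.an h
    by_cases m1 : h ∈ F
    · have p1 : 0 < x h := hF h m1
      have m2 : inv h ∉ F := by
        intro hm
        have p2 : 0 < x (inv h) := hF _ hm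
        omega
      rw [if_pos m1, if_neg m2, abs_le]
      omega
    · by_cases m2 : inv h ∈ F
      · have p2 : 0 < x (inv h) := hF _ m2
        rw [if_neg m1, if_pos m2, abs_le]
        omega
      · rw [if_neg m1, if_neg m2, abs_le]
        omega
  · intro h hch
    have b0 := hx.ze h hch
    have b2 := hx.an h
    simp only [hy]
    have m1 : h ∉ F := by
      intro hm
      have p1 : 0 < x h := hF h hm
      omega
    have m2 : inv h ∉ F := by
      intro hm
      have p1 : 0 < x (inv h) := hF _ hm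
      omega
    rw [if_neg m1, if_neg m2, b0]
    ring
  · refine sum_lt_sum (fun h _ => ?_) ⟨h0, mem_univ _, ?_⟩
    · obtain ⟨E, hE, E1, E2, E3⟩ := hdy h
      rw [hE]
      have k3 := h3 h
      by_cases q0 : TUT_orb next h = TUT_orb next h0
      · have e0 := hdo _ _ q0
        have q1 : ¬ TUT_orb next h = TUT_orb next h1 := by
          intro q1
          have e1 := hdo _ _ q1
          omega
        rw [E1 q0 q1]
        omega
      · by_cases q1 : TUT_orb next h = TUT_orb next h1
        · have e1 := hdo _ _ q1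
          rw [E2 q0 q1]
          omega
        · rw [E3 q0 q1]
          omega
    · obtain ⟨E, hE, E1, _, _⟩ := hdy h0
      rw [hE]
      have k3 := h3 h0
      have q1 : ¬ TUT_orb next h0 = TUT_orb next h1 := by
        intro q1
        have e1 := hdo _ _ q1
        omega
      rw [E1 rfl q1]
      omega

end TUT

theorem p_TUT (hRE : Stmt_REACH) : Stmt_TUT := by
  intro H _ inv next c hi _ hn3 hn hci hc
  have : Fintype H := Fintype.ofFinite H
  have key : ∀ n : ℕ, ∀ x : H → ℤ, TUT_P inv c x → ∑ h, (TUT_dd next x h).natAbs = n →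
      ∃ y, TUT_P inv c y ∧ ∀ h, TUT_dd next y h = 0 := by
    intro n
    induction n using Nat.strong_induction_on with
    | _ n ih =>
      intro x hx hn0
      by_cases hz : ∃ h, TUT_dd next x h ≠ 0
      · obtain ⟨y, hy, hlt⟩ := TUT_step hRE hi hn3 hn c hc x hx hz
        exact ih _ (by omega) y hy rfl
      · push Not at hz
        exact ⟨x, hx, hz⟩
  have hlift : ∃ f : ZMod 3 → ℤ, (∀ a, ((f a : ℤ) : ZMod 3) = a) ∧ (∀ a, f (-a) = -f a) ∧
      (∀ a, |f a| ≤ 2) ∧ f 0 = 0 := by
    refine ⟨fun a => if a = 0 then 0 else if a = 1 then 1 else -1, ?_, ?_, ?_, ?_⟩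
    · decide
    · decide
    · decide
    · decide
  obtain ⟨f, f1, f2, f3, f4⟩ := hlift
  obtain ⟨y, hy, hd⟩ := key _ (fun h => f (c h)) ⟨fun h => f1 _, fun h => by
    rw [hci, f2], fun h => f3 _, fun h hh => by
    rw [hh, f4]⟩ rfl
  exact ⟨y, hy.md, hy.an, hd, hy.bd, hy.ze⟩

end ESub
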