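import Pool.Agent.Work.MP_a2fb93_ev.Interface
set_option autoImplicit false

/-! WIN: the winner map and its locality (helper55) -/

namespace ESub

open Finset Classical

theorem WIN_ne {D : Type} (T : Triangulation D) (L n : ℕ) (δ ord : T.Vertex → ℕ)
    (hord : ∀ u, ord u ≤ n) (hinj : Function.Injective ord) (u u' v : T.Vertex)
    (h : score T L n δ ord u v = score T L n δ ord u' v) : u = u' := by
  unfold score at h
  apply hinj
  have h1 := hord u
  have h2 := hord u'
  have h3 : ((n : ℤ) + 1) * (((δ u : ℤ) - (T.td L u v : ℤ)) - ((δ u' : ℤ) - (T.td L u' v : ℤ))) =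
      (ord u' : ℤ) - ord u := by linarith
  have h4 : ((n : ℤ) + 1) ∣ (ord u' : ℤ) - ord u := ⟨_, h3.symm⟩
  have h5 : (ord u' : ℤ) - ord u = 0 := by
    apply Int.eq_zero_of_abs_lt_dvd h4
    rw [abs_lt]
    constructor <;> omega
  omega

theorem p_WIN (hVTX : Stmt_VTX) (hTDF : Stmt_TDF) : Stmt_WIN := by
  intro D _ T L n ord hord hinj
  have hfin : Finite T.Vertex := (hVTX D T).1
  obtain ⟨t1, t2, -, -, -, -, t7⟩ := hTDF D T L
  have hex : ∀ (δ : T.Vertex → ℕ) (v : T.Vertex), ∃ c : T.Vertex,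
      ∀ u, score T L n δ ord u v ≤ score T L n δ ord c v := by
    intro δ v
    have : Nonempty T.Vertex := ⟨v⟩
    exact Finite.exists_max (fun u => score T L n δ ord u v)
  choose c hc using hex
  have hlt : ∀ (δ : T.Vertex → ℕ) (v u : T.Vertex), u ≠ c δ v →
      score T L n δ ord u v < score T L n δ ord (c δ v) v := by
    intro δ v u hne
    exact lt_of_le_of_ne (hc δ v u) (fun h => hne (WIN_ne T L n δ ord hord hinj _ _ _ h))
  have hnear : ∀ (δ : T.Vertex → ℕ), (∀ u, δ u ≤ L) → ∀ v, T.Near L v (c δ v) := by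
    intro δ hδ v
    rw [← t7]
    by_contra hcon
    have h1 : T.td L (c δ v) v = L + 1 := le_antisymm (t1 _ _) (by omega)
    have h2 := hc δ v v
    unfold score at h2
    rw [t2, h1] at h2
    have h3 := hδ (c δ v)
    have h4 := hord (c δ v)
    push_cast at h2
    have h5 : (δ (c δ v) : ℤ) - ((L : ℤ) + 1) ≤ -1 := by
      have : (δ (c δ v) : ℤ) ≤ L := by exact_mod_cast h3
      linarith
    have h6 : ((n : ℤ) + 1) * ((δ (c δ v) : ℤ) - ((L : ℤ) + 1)) ≤ ((n : ℤ) + 1) * (-1) :=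
      mul_le_mul_of_nonneg_left h5 (by positivity)
    have h7 : (0 : ℤ) ≤ ((n : ℤ) + 1) * ((δ v : ℤ) - 0) := by
      rw [sub_zero]
      positivity
    have h8 : (ord (c δ v) : ℤ) ≤ n := by exact_mod_cast h4
    have h9 : (0 : ℤ) ≤ (ord v : ℤ) := by positivity
    linarith
  refine ⟨c, fun δ hδ => ⟨hlt δ, hnear δ hδ⟩, ?_⟩
  intro δ δ' v hδ hδ' hag
  by_contra hne
  have h1 := hlt δ v (c δ' v) (fun h => hne h.symm)
  have h2 := hlt δ' v (c δ v) hne
  have e1 := hag _ (hnear δ hδ v)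
  have e2 := hag _ (hnear δ' hδ' v)
  unfold score at h1 h2
  rw [e1, e2] at h1
  exact absurd h1 (not_lt.2 h2.le)

end ESub
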