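import Pool.Agent.Work.MP_a2fb93_ev.FIN
import Pool.Agent.Work.MP_a2fb93_ev.B_VTX
import Pool.Agent.Work.MP_a2fb93_ev.B_HOL
import Pool.Agent.Work.MP_a2fb93_ev.B_CONN
import Pool.Agent.Work.MP_a2fb93_ev.B_GAUGE
import Pool.Agent.Work.MP_a2fb93_ev.B_REACH
import Pool.Agent.Work.MP_a2fb93_ev.B_TUT
import Pool.Agent.Work.MP_a2fb93_ev.B_FL
import Pool.Agent.Work.MP_a2fb93_ev.B_LIFT
import Pool.Agent.Work.MP_a2fb93_ev.B_POT
import Pool.Agent.Work.MP_a2fb93_ev.B_COL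
import Pool.Agent.Work.MP_a2fb93_ev.B_TRA
import Pool.Agent.Work.MP_a2fb93_ev.B_TRB
import Pool.Agent.Work.MP_a2fb93_ev.B_TDF
import Pool.Agent.Work.MP_a2fb93_ev.B_CLUS
import Pool.Agent.Work.MP_a2fb93_ev.B_WIN
import Pool.Agent.Work.MP_a2fb93_ev.B_CNT
import Pool.Agent.Work.MP_a2fb93_ev.B_LLS
import Pool.Agent.Work.MP_a2fb93_ev.B_HIGH
import Pool.Agent.Work.MP_a2fb93_ev.B_NUM
import Pool.Agent.Work.MP_a2fb93_ev.B_PICK
set_option autoImplicit false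

/-!
All blocks together.
-/

namespace ESub

theorem all_even : Stmt_MAIN :=
  main p_VTX (p_CONN p_VTX) (p_GAUGE p_VTX (p_HOL p_VTX)) (p_LIFT (p_FL (p_TUT p_REACH))) p_POT
    (p_COL p_VTX) (p_TRB p_VTX (p_HOL p_VTX) (p_TRA p_VTX (p_HOL p_VTX)))
    (p_CLUS p_VTX (p_TDF p_VTX))
    (p_PICK p_VTX (p_TDF p_VTX) (p_WIN p_VTX (p_TDF p_VTX)) p_CNT p_LLS p_HIGH p_NUM)

theorem even_growth : ∃ K : ℕ, ∀ (D : Type) [Finite D] (T : Triangulation D), T.EvenDegrees →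
    ∀ r : ℕ, K ≤ r → T.FaceWidthAtLeast r →
      (∀ v : T.Vertex, Nat.card {w : T.Vertex // T.Near r v w} ≤ 2 ^ (r / K)) →
      T.DualThreeEdgeColourable := by
  obtain ⟨K, h, -⟩ := all_even
  exact ⟨K, h⟩

end ESub
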