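import Pool.Agent.Work.MP_a2fb93_ev.All
set_option autoImplicit false

/-!
Triangulations of closed orientable surfaces of any genus with all degrees even, large face-width
(an absolute constant is enough) and moderate growth on the scale of the face-width: their duals are
3-edge-colourable.
-/

theorem ESub.EvenGrowth.result :
    ∃ K : ℕ, ∀ (D : Type) [Finite D] (T : ESub.Triangulation D), T.EvenDegrees → ∀ r : ℕ, K ≤ r →
      T.FaceWidthAtLeast r →
      (∀ v : T.Vertex, Nat.card {w : T.Vertex // T.Near r v w} ≤ 2 ^ (r / K)) →
      T.DualThreeEdgeColourable :=
  ESub.even_growth
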