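import Pool.Agent.Work.MP_a2fb93_ev.Interface
set_option autoImplicit false

/-!
Assembly of the proof for Eulerian triangulations.
-/

namespace ESub

theorem growth_case (hCONN : Stmt_CONN) (hGAUGE : Stmt_GAUGE) (hLIFT : Stmt_LIFT)
    (hPOT : Stmt_POT) (hCOL : Stmt_COL) (hTRB : Stmt_TRB) (hCLUS : Stmt_CLUS)
    (hPICK : Stmt_PICK) :
    ∃ K : ℕ, 0 < K ∧ ∀ (D : Type) [Finite D] (T : Triangulation D), T.EvenDegrees → ∀ r : ℕ,
      K ≤ r → T.FaceWidthAtLeast r →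
      (∀ v : T.Vertex, Nat.card {w : T.Vertex // T.Near r v w} ≤ 2 ^ (r / K)) →
      T.DualThreeEdgeColourable := by
  obtain ⟨K, hK0, hK⟩ := hPICK
  refine ⟨K * 4, by omega, ?_⟩
  intro D _ T hT r hr hw hg
  have hr4 : 4 ≤ r := by omega
  have hKr : K ≤ r := by omega
  obtain ⟨L, n, δ, ord, c, hL, hδ, hord, hc, hpath⟩ := hK D T r hKr (fun v =>
    (hg v).trans (Nat.pow_le_pow_right (by norm_num)
      (Nat.div_le_div_left (by omega) hK0)))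
  obtain ⟨γ, hγ1, hγ2, hγ3⟩ := hCLUS D T L n δ ord c hδ hord hc
  have hγ4 : ∀ v, ∀ d ∈ γ v, c (T.org d) = c (T.tgt d) := fun v d hd =>
    (hγ3 v d hd).1.trans (hγ3 v d hd).2.symm
  obtain ⟨g, hg1, hg2⟩ := hCONN D T hT
  obtain ⟨g', cl, hg1', hcl, hg3'⟩ := hGAUGE D T r L hw (by omega) c γ hγ1 hγ2 g hg1 hg2
  obtain ⟨ρ, hρ1, hρ2, hρ3, hρ4⟩ := hLIFT D T g' hg1'
  have hW := hTRB D T r L (r / 4) (by omega) hw (by omega) (by omega) c γ hγ1 hγ2 hγ4 hpath ρ hρ1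
    hρ3 (fun d hd => hρ4 d (hg3' d hd))
  obtain ⟨F, hF⟩ := hPOT D T ρ hρ1 _ hW
  exact hCOL D T ρ cl F hρ1 (fun d => by rw [hρ2 d]; exact hcl d) hF

theorem main (hVTX : Stmt_VTX) (hCONN : Stmt_CONN) (hGAUGE : Stmt_GAUGE) (hLIFT : Stmt_LIFT)
    (hPOT : Stmt_POT) (hCOL : Stmt_COL) (hTRB : Stmt_TRB) (hCLUS : Stmt_CLUS)
    (hPICK : Stmt_PICK) : Stmt_MAIN := by
  obtain ⟨K, hK0, hK⟩ := growth_case hCONN hGAUGE hLIFT hPOT hCOL hTRB hCLUS hPICK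
  refine ⟨K, hK, ?_⟩
  intro D _ T hT hw
  haveI : Finite T.Vertex := (hVTX D T).1
  refine hK D T hT _ ?_ hw ?_
  · exact Nat.le_mul_of_pos_right _ (by omega)
  · intro v
    rw [Nat.mul_div_cancel_left _ hK0]
    have h1 : Nat.card {w : T.Vertex //
        T.Near (K * (Nat.log 2 (Nat.card T.Vertex) + 1)) v w} ≤ Nat.card T.Vertex :=
      Nat.card_le_card_of_injective _ Subtype.val_injective
    exact h1.trans (Nat.lt_pow_succ_log_self (by norm_num) _).le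

end ESub
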